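import Pool.Agent.Lib.MP_01def2_lc.Seq

/-!
The core lower bound: small constant-depth circuits cannot tell a random instance from the same
instance with a planted solution.
-/

namespace Pool.Agent.Lib.MP_01def2_lc

open Finset

/-- `u` is a solution of the instance `x` -/
def Sol {k B : ℕ} (e : Fin k → Pos → Fin k) (x : Tup k B → Bool) (u : Fin k → Dom B) : Prop :=
  ∀ j, x (tup e u j) = true

theorem all_junta (b1 K d : ℕ) : ∃ b w0 : ℕ, ∀ w ≥ w0, ∀ (X V : Type) [Fintype X]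
    [Fintype V] (C : Circuit V) (ψ : (X → Bool) → V → Bool),
    (∀ v, Pb (wt X ((1 / 2 : ℝ) ^ w)) (fun ρ => ¬ Junta b1 (fun z => ψ (rs ρ z) v)) ≤
      (1 / 2 : ℝ) ^ (K * w)) →
    (∀ c : V ⊕ Fin C.size, C.wireDepth c ≤ d →
      Pb (wt X (((1 / 2 : ℝ) ^ w) ^ (d + 2)))
        (fun ρ => ¬ Junta b (fun z => C.wireVal (ψ (rs ρ z)) c)) ≤
      (d + 2) * (Fintype.card V + C.size + 1 : ℕ) ^ (d + 1) * (1 / 2 : ℝ) ^ (K * w)) ∧
    (∀ i : Fin C.size, C.gateDepth i ≤ d → ∀ m,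
      Pb (wt X (((1 / 2 : ℝ) ^ w) ^ (d + 2)))
        (fun ρ => ¬ Junta b (fun z => pf C i m (ψ (rs ρ z)))) ≤
      (d + 2) * (Fintype.card V + C.size + 1 : ℕ) ^ (d + 1) * (1 / 2 : ℝ) ^ (K * w)) := by
  obtain ⟨b, w0, hb⟩ := wire_junta b1 K d
  obtain ⟨b', w0', hb'⟩ := fss b K
  refine ⟨max b b', max w0 w0', fun w hw X V _ _ C ψ hbase => ?_⟩
  have hw1 : w ≥ w0 := le_trans (le_max_left _ _) hw
  have hw2 : w ≥ w0' := le_trans (le_max_right _ _) hw
  have IH := hb w hw1 X V C ψ hbase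
  have hfss := fun (I : Type) (s : Finset I) => hb' w hw2 X I s
  set q : ℝ := (1 / 2 : ℝ) ^ w with hq
  have hq0 : 0 ≤ q := by positivity
  have hq1 : q ≤ 1 := pow_le_one₀ (by norm_num) (by norm_num)
  have hQ0 : 0 ≤ q ^ (d + 1) := by positivity
  have hQ1 : q ^ (d + 1) ≤ 1 := pow_le_one₀ hq0 hq1
  set W : ℕ := Fintype.card V + C.size + 1 with hW
  have hW1 : (1 : ℝ) ≤ (W : ℝ) := by
    have : 1 ≤ W := by omega
    exact_mod_cast this
  set ε : ℝ := (1 / 2 : ℝ) ^ (K * w) with hε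
  have hε0 : 0 ≤ ε := by positivity
  have hWℓ : (1 : ℝ) ≤ (W : ℝ) ^ (d + 1) := one_le_pow₀ hW1
  have hWℓ' : (W : ℝ) ^ d ≤ (W : ℝ) ^ (d + 1) := pow_le_pow_right₀ hW1 (Nat.le_succ _)
  have hδ : ((d : ℝ) + 1) * (W : ℝ) ^ d * ε ≤ ((d : ℝ) + 2) * (W : ℝ) ^ (d + 1) * ε := by
    refine mul_le_mul_of_nonneg_right ?_ hε0
    have : (0 : ℝ) ≤ d := Nat.cast_nonneg _
    nlinarith
  have hstep : ∀ m : ℕ, m ≤ W → (m : ℝ) * (((d : ℝ) + 1) * (W : ℝ) ^ d * ε) + ε ≤
      ((d : ℝ) + 2) * (W : ℝ) ^ (d + 1) * ε := by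
    intro m hm
    have hm' : (m : ℝ) ≤ W := by exact_mod_cast hm
    have h1 : (m : ℝ) * (((d : ℝ) + 1) * (W : ℝ) ^ d * ε) ≤
        (W : ℝ) * (((d : ℝ) + 1) * (W : ℝ) ^ d * ε) :=
      mul_le_mul_of_nonneg_right hm' (by positivity)
    have h2 : ε ≤ (W : ℝ) ^ (d + 1) * ε := by nlinarith
    have h3 : (W : ℝ) * (((d : ℝ) + 1) * (W : ℝ) ^ d * ε) =
        ((d : ℝ) + 1) * (W : ℝ) ^ (d + 1) * ε := by ring
    linarith
  have shallow : ∀ (g : (X → Bool) → Bool), Pb (wt X (q ^ (d + 1)))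
      (fun ρ => ¬ Junta b (fun z => g (rs ρ z))) ≤ ((d : ℝ) + 1) * (W : ℝ) ^ d * ε →
      Pb (wt X (q ^ (d + 2))) (fun ρ => ¬ Junta (max b b') (fun z => g (rs ρ z))) ≤
      ((d : ℝ) + 2) * (W : ℝ) ^ (d + 1) * ε := by
    intro g hg
    rw [show d + 2 = (d + 1) + 1 from rfl, pow_succ q (d + 1)]
    refine le_trans (Pb_junta_comp hQ0 hQ1 hq0 hq1 _ g) (le_trans (le_trans (Pb_mono
      (wt_nonneg hQ0 hQ1) ?_) hg) hδ)
    intro ρ hρ hj
    exact hρ (hj.mono (le_max_left _ _))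
  refine ⟨?_, ?_⟩
  · intro c hc
    exact shallow (fun z => C.wireVal (ψ z) c) (IH c hc)
  · intro i hi m
    cases h : C.gate i with
    | not c =>
      have h1 := IH (liftW i c) (by have := gateDepth_not h; omega)
      simp only [pf_not h]
      refine shallow (fun z => ! C.wireVal (ψ z) (liftW i c)) ?_
      refine le_trans (Pb_mono (wt_nonneg hQ0 hQ1) ?_) h1
      intro ρ hρ hj
      exact hρ hj.not
    | and cs =>
      rw [show d + 2 = (d + 1) + 1 from rfl, pow_succ q (d + 1)]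
      have h2 := and_step' b b' w K hQ0 hQ1 (ch cs m) (fun c z => C.wireVal (ψ z) (liftW i c))
        (((d : ℝ) + 1) * (W : ℝ) ^ d * ε) (by
          intro g' hg'
          convert hfss _ (ch cs m) g' hg')
        (fun c hc' => IH (liftW i c) (by have := gateDepth_and h (ch_subset cs m hc'); omega))
      refine le_trans (Pb_mono (wt_nonneg (by positivity) ?_) ?_) (le_trans h2
        (hstep _ (card_cs_le _)))
      · exact mul_le_one₀ hQ1 hq0 hq1
      · intro ρ hρ hj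
        apply hρ
        refine Junta.mono ?_ (le_max_right b b')
        convert hj using 1
        funext z
        rw [Bool.eq_iff_iff, pf_and h, decide_eq_true_eq]
    | or cs =>
      rw [show d + 2 = (d + 1) + 1 from rfl, pow_succ q (d + 1)]
      have h2 := or_step b b' w K hQ0 hQ1 (ch cs m) (fun c z => C.wireVal (ψ z) (liftW i c))
        (((d : ℝ) + 1) * (W : ℝ) ^ d * ε) (by
          intro g' hg'
          convert hfss _ (ch cs m) g' hg')
        (fun c hc' => IH (liftW i c) (by have := gateDepth_or h (ch_subset cs m hc'); omega))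
      refine le_trans (Pb_mono (wt_nonneg (by positivity) ?_) ?_) (le_trans h2
        (hstep _ (card_cs_le _)))
      · exact mul_le_one₀ hQ1 hq0 hq1
      · intro ρ hρ hj
        apply hρ
        refine Junta.mono ?_ (le_max_right b b')
        convert hj using 1
        funext z
        rw [Bool.eq_iff_iff, pf_or h, decide_eq_true_eq]

theorem kappa_bound (k D w B : ℕ) (hB : B = 2 * k * D * w)
    (hw : ((4 * k * D * w : ℕ) : ℝ) ^ 2 ≤ 2 ^ w) (hD : 1 ≤ D) (h : ℕ) :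
    (1 / 2 : ℝ) ^ ((D * w + B + 1) * h) ≤
      (((1 / 2 : ℝ) ^ w) ^ D * ((1 - ((1 / 2 : ℝ) ^ w) ^ D) / 2) ^ B) ^ h := by
  rw [pow_mul]
  refine pow_le_pow_left₀ (by positivity) ?_ _
  set q : ℝ := ((1 / 2 : ℝ) ^ w) ^ D with hq
  have hq' : q = (1 / 2 : ℝ) ^ (D * w) := by rw [hq, ← pow_mul, mul_comm]
  have hq0 : 0 ≤ q := by positivity
  have hq1 : q ≤ 1 := by rw [hq']; exact pow_le_one₀ (by norm_num) (by norm_num)
  have h1 : (B : ℝ) * q ≤ 1 / 2 := by
    have h2 : ((4 * k * D * w : ℕ) : ℝ) ≤ 2 ^ w := by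
      rcases Nat.eq_zero_or_pos (4 * k * D * w) with h0 | h0
      · rw [h0]; push_cast; positivity
      · have : (1 : ℝ) ≤ ((4 * k * D * w : ℕ) : ℝ) := by exact_mod_cast h0
        nlinarith
    have h3 : q ≤ (1 / 2 : ℝ) ^ w := by
      rw [hq']
      exact pow_le_pow_of_le_one (by norm_num) (by norm_num) (Nat.le_mul_of_pos_left _ hD)
    have h4 : (2 : ℝ) ^ w * (1 / 2 : ℝ) ^ w = 1 := by rw [← mul_pow]; norm_num
    have h5 : (B : ℝ) * 2 = ((4 * k * D * w : ℕ) : ℝ) := by rw [hB]; push_cast; ring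
    have h6 : (B : ℝ) * 2 * q ≤ 2 ^ w * (1 / 2 : ℝ) ^ w := by
      rw [h5]
      exact mul_le_mul h2 h3 hq0 (by positivity)
    rw [h4] at h6
    linarith
  have h7 : (1 / 2 : ℝ) ≤ (1 - q) ^ B := by
    have := one_add_mul_le_pow (a := -q) (by linarith) B
    have h8 : (1 + -q) = 1 - q := by ring
    rw [h8] at this
    nlinarith
  rw [div_pow (1 - q) 2 B, hq']
  rw [hq'] at h7
  calc (1 / 2 : ℝ) ^ (D * w + B + 1) = (1 / 2 : ℝ) ^ (D * w) * ((1 / 2) / 2 ^ B) := by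
        rw [pow_add, pow_add, one_div, inv_pow, inv_pow]
        field_simp
    _ ≤ (1 / 2 : ℝ) ^ (D * w) * ((1 - (1 / 2 : ℝ) ^ (D * w)) ^ B / 2 ^ B) := by
        refine mul_le_mul_of_nonneg_left ?_ (by positivity)
        exact div_le_div_of_nonneg_right h7 (by positivity)

theorem sens_bound {k B : ℕ} (g : (Tup k B → Bool) → Bool) (e : Fin k → Pos → Fin k)
    (H : Finset (Fin k)) (b D w : ℕ) (δ : ℝ) (hB : B = 2 * k * D * w)
    (hw : ((4 * k * D * w : ℕ) : ℝ) ^ 2 ≤ 2 ^ w) (hD : 1 ≤ D)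
    (hH : H.card ≤ (cov e H).card)
    (hδ : Pb (wt (ZV k B) (((1 / 2 : ℝ) ^ w) ^ D))
      (fun ρ => ¬ Junta b (fun z => g (xof (rs ρ z)))) ≤ δ) :
    ∑ v : Fin k → Dom B, Pb (un (ZV k B)) (fun z => DD g e v (xof z) H) ≤
      (2 : ℝ) ^ (B * k) * ((2 * (b + 1)) ^ k * 2 ^ (D * w * k) *
        (1 / 2 : ℝ) ^ (B * ((cov e H).card - H.card)) + 2 ^ (k + D * w * k + B * k) * δ) := by
  set q : ℝ := ((1 / 2 : ℝ) ^ w) ^ D with hq
  have hq0 : 0 ≤ q := by positivity
  have hq1 : q ≤ 1 := pow_le_one₀ (by positivity) (pow_le_one₀ (by norm_num) (by norm_num))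
  have h1 := sum_sensitive g e H b hq0 hq1
  have h2 := kappa_bound k D w B hB hw hD H.card
  rw [← hq] at h2
  set S := ∑ v : Fin k → Dom B, Pb (un (ZV k B)) (fun z => DD g e v (xof z) H) with hS
  have hS0 : 0 ≤ S := Finset.sum_nonneg fun v _ => Pb_nonneg un_nonneg _
  have hδ0 : 0 ≤ δ := le_trans (Pb_nonneg (wt_nonneg hq0 hq1) _) hδ
  set h := H.card with hh
  set c := (cov e H).card with hc
  have hck : c ≤ k := by
    have := Finset.card_le_univ (cov e H)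
    simpa using this
  have hhk : h ≤ k := le_trans hH hck
  have h3 : (1 / 2 : ℝ) ^ ((D * w + B + 1) * h) * S ≤
      (b : ℝ) ^ h * (2 ^ B) ^ (k - c) + (2 ^ B) ^ k * δ := by
    refine le_trans (mul_le_mul_of_nonneg_right h2 hS0) (le_trans h1 ?_)
    refine add_le_add le_rfl ?_
    exact mul_le_mul_of_nonneg_left hδ (by positivity)
  have h4 : (2 : ℝ) ^ ((D * w + B + 1) * h) * (1 / 2 : ℝ) ^ ((D * w + B + 1) * h) = 1 := by
    rw [← mul_pow]; norm_num
  have h5 : S ≤ (2 : ℝ) ^ ((D * w + B + 1) * h) *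
      ((b : ℝ) ^ h * (2 ^ B) ^ (k - c) + (2 ^ B) ^ k * δ) := by
    calc S = (2 : ℝ) ^ ((D * w + B + 1) * h) * ((1 / 2 : ℝ) ^ ((D * w + B + 1) * h) * S) := by
          rw [← mul_assoc, h4, one_mul]
      _ ≤ _ := mul_le_mul_of_nonneg_left h3 (by positivity)
  refine le_trans h5 ?_
  rw [mul_add, mul_add]
  refine add_le_add ?_ ?_
  · -- first term
    have e1 : (2 : ℝ) ^ ((D * w + B + 1) * h) * ((b : ℝ) ^ h * (2 ^ B) ^ (k - c)) =
        ((2 * b : ℝ) ^ h) * 2 ^ (D * w * h) * (2 ^ (B * h) * 2 ^ (B * (k - c))) := by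
      rw [mul_pow, ← pow_mul]
      rw [show (D * w + B + 1) * h = h + D * w * h + B * h by ring, pow_add, pow_add]
      ring
    have e2 : (2 : ℝ) ^ (B * h) * 2 ^ (B * (k - c)) =
        2 ^ (B * k) * (1 / 2 : ℝ) ^ (B * (c - h)) := by
      have e3 : (2 : ℝ) ^ (B * (c - h)) * (1 / 2 : ℝ) ^ (B * (c - h)) = 1 := by
        rw [← mul_pow]; norm_num
      have e4 : B * h + B * (k - c) + B * (c - h) = B * k := by
        rw [← Nat.mul_add, ← Nat.mul_add]
        congr 1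
        omega
      calc (2 : ℝ) ^ (B * h) * 2 ^ (B * (k - c)) = (2 : ℝ) ^ (B * h) * 2 ^ (B * (k - c)) *
            ((2 : ℝ) ^ (B * (c - h)) * (1 / 2 : ℝ) ^ (B * (c - h))) := by rw [e3, mul_one]
        _ = (2 : ℝ) ^ (B * h + B * (k - c) + B * (c - h)) * (1 / 2 : ℝ) ^ (B * (c - h)) := by
            rw [pow_add, pow_add]; ring
        _ = _ := by rw [e4]
    rw [e1, e2]
    have e5 : ((2 * b : ℝ) ^ h) ≤ (2 * ((b : ℝ) + 1)) ^ k := by
      have hb0 : (0 : ℝ) ≤ b := Nat.cast_nonneg _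
      calc ((2 * b : ℝ) ^ h) ≤ (2 * ((b : ℝ) + 1)) ^ h :=
            pow_le_pow_left₀ (by positivity) (by linarith) _
        _ ≤ (2 * ((b : ℝ) + 1)) ^ k := pow_le_pow_right₀ (by linarith) hhk
    have e6 : (2 : ℝ) ^ (D * w * h) ≤ 2 ^ (D * w * k) :=
      pow_le_pow_right₀ (by norm_num) (Nat.mul_le_mul_left _ hhk)
    calc (2 * (b : ℝ)) ^ h * 2 ^ (D * w * h) * (2 ^ (B * k) * (1 / 2 : ℝ) ^ (B * (c - h))) ≤
          (2 * ((b : ℝ) + 1)) ^ k * 2 ^ (D * w * k) *
            (2 ^ (B * k) * (1 / 2 : ℝ) ^ (B * (c - h))) := by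
          refine mul_le_mul_of_nonneg_right ?_ (by positivity)
          exact mul_le_mul e5 e6 (by positivity) (by positivity)
      _ = _ := by ring
  · have e7 : (2 : ℝ) ^ ((D * w + B + 1) * h) ≤ 2 ^ (k + D * w * k + B * k) := by
      refine pow_le_pow_right₀ (by norm_num) ?_
      calc (D * w + B + 1) * h ≤ (D * w + B + 1) * k := Nat.mul_le_mul_left _ hhk
        _ = k + D * w * k + B * k := by ring
    calc (2 : ℝ) ^ ((D * w + B + 1) * h) * ((2 ^ B) ^ k * δ) ≤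
          2 ^ (k + D * w * k + B * k) * ((2 ^ B) ^ k * δ) :=
          mul_le_mul_of_nonneg_right e7 (by positivity)
      _ = _ := by rw [← pow_mul]; ring

theorem card_WW {k B : ℕ} (e : Fin k → Pos → Fin k) (u : Fin k → Dom B) :
    (WW e u Finset.univ).card = k * (B + 1) := by
  unfold WW
  rw [Finset.card_product, Finset.card_map, Finset.card_univ, Finset.card_univ, Fintype.card_fin,
    Fintype.card_fin]

theorem Pb_sol {k B : ℕ} (e : Fin k → Pos → Fin k) :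
    Pb (un (ZV k B)) (fun z => ∃ u, Sol e (xof z) u) ≤ (1 / 2 : ℝ) ^ k := by
  classical
  have h1 : Pb (un (ZV k B)) (fun z => ∃ u, Sol e (xof z) u) ≤
      Pb (un (ZV k B)) (fun z => ∃ u ∈ (Finset.univ : Finset (Fin k → Dom B)),
        ∀ p ∈ WW e u Finset.univ, z p = true) := by
    refine Pb_mono un_nonneg fun z hz => ?_
    obtain ⟨u, hu⟩ := hz
    refine ⟨u, Finset.mem_univ _, ?_⟩
    intro p hp
    rw [mem_WW] at hp
    obtain ⟨j, _, hj⟩ := hp
    have h2 := hu j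
    unfold xof at h2
    rw [decide_eq_true_eq] at h2
    have h3 := h2 p.2
    rw [← hj] at h3
    exact h3
  refine le_trans h1 (le_trans (Pb_exists_le un_nonneg _ _) ?_)
  have h4 : ∀ u ∈ (Finset.univ : Finset (Fin k → Dom B)), Pb (un (ZV k B))
      (fun z => ∀ p ∈ WW e u Finset.univ, z p = true) = (1 / 2 : ℝ) ^ (k * (B + 1)) := by
    intro u _
    rw [Pb_cyl un_sum (WW e u Finset.univ) (fun _ o => o = true), ← card_WW e u,
      ← Finset.prod_const]
    refine Finset.prod_congr rfl fun p _ => ?_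
    simp [un]
  rw [Finset.sum_congr rfl h4, Finset.sum_const, nsmul_eq_mul, Finset.card_univ]
  rw [Fintype.card_fun, Fintype.card_fun, Fintype.card_fin, Fintype.card_fin, Fintype.card_bool]
  push_cast
  rw [← pow_mul]
  have h5 : (2 : ℝ) ^ (B * k) * (1 / 2 : ℝ) ^ (B * k) = 1 := by rw [← mul_pow]; norm_num
  have h6 : k * (B + 1) = B * k + k := by ring
  rw [h6, pow_add, ← mul_assoc, h5, one_mul]

theorem base_junta (K : ℕ) : ∃ b1 w1 : ℕ, ∀ w ≥ w1, ∀ (k B : ℕ) (V : Type)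
    (Ψ : (Tup k B → Bool) → V → Bool),
    (∀ v, (∃ c, ∀ x, Ψ x v = c) ∨ ∃ t, ∀ x, Ψ x v = x t) → ∀ v,
    Pb (wt (ZV k B) ((1 / 2 : ℝ) ^ w))
      (fun ρ => ¬ Junta b1 (fun z => Ψ (xof (rs ρ z)) v)) ≤ (1 / 2 : ℝ) ^ (K * w) := by
  classical
  obtain ⟨b1, w1, h1⟩ := fss 1 K
  refine ⟨b1, w1, fun w hw k B V Ψ hΨ v => ?_⟩
  rcases hΨ v with ⟨c, hc⟩ | ⟨t, ht⟩
  · rw [Pb_eq_zero]
    · positivity
    · intro ρ
      rw [not_not]
      simp only [hc]
      exact junta_const _ _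
  · have h2 := h1 w hw (ZV k B) (Fin (B + 1)) Finset.univ (fun i z => z (t, i)) (by
      intro i _
      refine ⟨{(t, i)}, by simp, ?_⟩
      intro x y hxy
      exact hxy (t, i) (by simp))
    refine le_trans (Pb_mono (wt_nonneg (by positivity)
      (pow_le_one₀ (by norm_num) (by norm_num))) ?_) h2
    intro ρ hρ hj
    apply hρ
    convert hj using 1
    funext z
    rw [ht, Bool.eq_iff_iff]
    unfold xof
    simp only [decide_eq_true_eq, Finset.mem_univ, true_imp_iff]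

open scoped Classical in
/-- **Core lower bound** -/
theorem core (d k Γ D : ℕ) (hD : D = d + 2) (hk : 4 ≤ k) (e : Fin k → Pos → Fin k)
    (he1 : ∀ H : Finset (Fin k), H.Nonempty → H ≠ Finset.univ → H.card + 1 ≤ (cov e H).card)
    (he2 : ∀ H : Finset (Fin k), k ≤ 3 * H.card → 3 * k < 4 * (cov e H).card)
    (hΓ : 6 * (D * k + 2 * Γ + 1) ≤ k * k * D) :
    ∃ w0, ∀ w ≥ w0, ∀ B : ℕ, B = 2 * k * D * w → ∀ (V : Type) [Fintype V] (C : Circuit V)
      (Ψ : (Tup k B → Bool) → V → Bool),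
      (∀ v, (∃ c, ∀ x, Ψ x v = c) ∨ ∃ t, ∀ x, Ψ x v = x t) →
      C.depth ≤ d → Fintype.card V + C.size + 1 ≤ 2 ^ (Γ * w) →
      ∃ (x : Tup k B → Bool) (v : Fin k → Dom B),
        (¬ ∃ u, Sol e x u) ∧ C.eval (Ψ x) = C.eval (Ψ (plant e v Finset.univ x)) := by
  obtain ⟨K, hK⟩ : ∃ K, K = D * k + 2 * k * D * k + Γ * (d + 1) + 2 * Γ + 1 := ⟨_, rfl⟩
  obtain ⟨b1, w1, hb1⟩ := base_junta K
  obtain ⟨b, w2, hb⟩ := all_junta b1 K d
  rw [← hD] at hb
  obtain ⟨w3, hw3⟩ := eventually_sq_le (4 * k * D)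
  set M : ℝ := (2 * ((b : ℝ) + 1)) ^ k + 2 ^ k * (d + 2) with hM
  have hM0 : 0 ≤ M := by positivity
  obtain ⟨w4, hw4⟩ := pow_unbounded_of_one_lt (2 ^ (k + 3) * M) (one_lt_two (α := ℝ))
  refine ⟨max (max w1 w2) (max w3 w4), fun w hw B hB V _ C Ψ hΨ hdepth hsize => ?_⟩
  have hww1 : w ≥ w1 := le_trans (le_trans (le_max_left _ _) (le_max_left _ _)) hw
  have hww2 : w ≥ w2 := le_trans (le_trans (le_max_right _ _) (le_max_left _ _)) hw
  have hww3 : w ≥ w3 := le_trans (le_trans (le_max_left _ _) (le_max_right _ _)) hw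
  have hww4 : w ≥ w4 := le_trans (le_trans (le_max_right _ _) (le_max_right _ _)) hw
  set W := Fintype.card V + C.size + 1 with hW
  set δ : ℝ := (d + 2) * (W : ℝ) ^ (d + 1) * (1 / 2 : ℝ) ^ (K * w) with hδ
  have hδ0 : 0 ≤ δ := by positivity
  have hwsq : ((4 * k * D * w : ℕ) : ℝ) ^ 2 ≤ 2 ^ w := hw3 w hww3
  obtain ⟨hJw, hJg⟩ := hb w hww2 (ZV k B) V C (fun z => Ψ (xof z))
    (hb1 w hww1 k B V Ψ hΨ)
  by_contra hcon
  push Not at hcon
  -- the second error term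
  have hT2 : (2 : ℝ) ^ (k + D * w * k + B * k) * δ ≤ 2 ^ k * (d + 2) *
      (1 / 2 : ℝ) ^ ((2 * Γ + 1) * w) := by
    have h1 : (W : ℝ) ^ (d + 1) ≤ (2 : ℝ) ^ (Γ * w * (d + 1)) := by
      rw [pow_mul]
      refine pow_le_pow_left₀ (by positivity) ?_ _
      exact_mod_cast hsize
    have h2 : K * w = (D * w * k + B * k + Γ * w * (d + 1)) + (2 * Γ + 1) * w := by
      rw [hK, hB]; ring
    have h3 : (2 : ℝ) ^ (D * w * k + B * k + Γ * w * (d + 1)) *
        (1 / 2 : ℝ) ^ (D * w * k + B * k + Γ * w * (d + 1)) = 1 := by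
      rw [← mul_pow]; norm_num
    calc (2 : ℝ) ^ (k + D * w * k + B * k) * δ ≤ (2 : ℝ) ^ (k + D * w * k + B * k) *
          ((d + 2) * (2 : ℝ) ^ (Γ * w * (d + 1)) * (1 / 2 : ℝ) ^ (K * w)) := by
          refine mul_le_mul_of_nonneg_left ?_ (by positivity)
          refine mul_le_mul_of_nonneg_right ?_ (by positivity)
          exact mul_le_mul_of_nonneg_left h1 (by positivity)
      _ = 2 ^ k * (d + 2) * ((2 : ℝ) ^ (D * w * k + B * k + Γ * w * (d + 1)) *
          (1 / 2 : ℝ) ^ (D * w * k + B * k + Γ * w * (d + 1))) *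
          (1 / 2 : ℝ) ^ ((2 * Γ + 1) * w) := by
          have e1 : (2 : ℝ) ^ (k + D * w * k + B * k) = 2 ^ k * 2 ^ (D * w * k + B * k) := by
            rw [add_assoc, pow_add]
          have e2 : (2 : ℝ) ^ (D * w * k + B * k + Γ * w * (d + 1)) =
              2 ^ (D * w * k + B * k) * 2 ^ (Γ * w * (d + 1)) := pow_add _ _ _
          rw [h2, pow_add (1 / 2 : ℝ) (D * w * k + B * k + Γ * w * (d + 1)), e1, e2]
          ring
      _ = _ := by rw [h3, mul_one]
  have hhalf : (1 / 2 : ℝ) ^ ((2 * Γ + 1) * w) ≤ (1 / 2 : ℝ) ^ w :=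
    pow_le_pow_of_le_one (by norm_num) (by norm_num) (Nat.le_mul_of_pos_left _ (by omega))
  -- sensitivity bounds
  have hmidb : ∀ (i : Fin C.size), C.gateDepth i ≤ d → ∀ (m : ℕ) (H : Finset (Fin k)),
      k ≤ 3 * H.card → 3 * H.card < 2 * k →
      ∑ v : Fin k → Dom B, Pb (un (ZV k B))
        (fun z => DD (fun x => pf C i m (Ψ x)) e v (xof z) H) ≤
      (2 : ℝ) ^ (B * k) * (M * (1 / 2 : ℝ) ^ ((2 * Γ + 1) * w)) := by
    intro i hi m H hH1 hH2
    have hc := he2 H hH1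
    have h1 := sens_bound (fun x => pf C i m (Ψ x)) e H b D w δ hB hwsq (by omega) (by omega)
      (hJg i hi m)
    refine le_trans h1 ?_
    refine mul_le_mul_of_nonneg_left ?_ (by positivity)
    rw [hM, add_mul]
    refine add_le_add ?_ hT2
    rw [mul_assoc]
    refine mul_le_mul_of_nonneg_left ?_ (by positivity)
    have h2 : D * w * k + (2 * Γ + 1) * w ≤ B * ((cov e H).card - H.card) := by
      have h3 : k + 1 ≤ 12 * ((cov e H).card - H.card) := by omega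
      have h4 : 12 * (D * w * k + (2 * Γ + 1) * w) ≤ 12 * (B * ((cov e H).card - H.card)) := by
        calc 12 * (D * w * k + (2 * Γ + 1) * w) = 2 * (6 * (D * k + 2 * Γ + 1)) * w := by ring
          _ ≤ 2 * (k * k * D) * w :=
              Nat.mul_le_mul_right _ (Nat.mul_le_mul_left _ hΓ)
          _ = B * k := by rw [hB]; ring
          _ ≤ B * (12 * ((cov e H).card - H.card)) := Nat.mul_le_mul_left _ (by omega)
          _ = _ := by ring
      omega
    have h5 : (2 : ℝ) ^ (D * w * k) * (1 / 2 : ℝ) ^ (D * w * k) = 1 := by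
      rw [← mul_pow]; norm_num
    calc (2 : ℝ) ^ (D * w * k) * (1 / 2 : ℝ) ^ (B * ((cov e H).card - H.card)) ≤
          (2 : ℝ) ^ (D * w * k) * (1 / 2 : ℝ) ^ (D * w * k + (2 * Γ + 1) * w) := by
          refine mul_le_mul_of_nonneg_left ?_ (by positivity)
          exact pow_le_pow_of_le_one (by norm_num) (by norm_num) h2
      _ = ((2 : ℝ) ^ (D * w * k) * (1 / 2 : ℝ) ^ (D * w * k)) *
          (1 / 2 : ℝ) ^ ((2 * Γ + 1) * w) := by rw [pow_add]; ring
      _ = _ := by rw [h5, one_mul]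
  have hsmallb : ∀ (H : Finset (Fin k)), H.Nonempty → 3 * H.card < k →
      ∑ v : Fin k → Dom B, Pb (un (ZV k B))
        (fun z => DD (fun x => C.wireVal (Ψ x) C.output) e v (xof z) H) ≤
      (2 : ℝ) ^ (B * k) * (M * (1 / 2 : ℝ) ^ w) := by
    intro H hne hH
    have hun : H ≠ Finset.univ := by
      rintro rfl
      rw [Finset.card_univ, Fintype.card_fin] at hH
      omega
    have hc := he1 H hne hun
    have h1 := sens_bound (fun x => C.wireVal (Ψ x) C.output) e H b D w δ hB hwsq (by omega)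
      (by omega) (hJw C.output hdepth)
    refine le_trans h1 ?_
    refine mul_le_mul_of_nonneg_left ?_ (by positivity)
    rw [hM, add_mul]
    refine add_le_add ?_ (le_trans hT2 (mul_le_mul_of_nonneg_left hhalf (by positivity)))
    rw [mul_assoc]
    refine mul_le_mul_of_nonneg_left ?_ (by positivity)
    have h2 : D * w * k + w ≤ B * ((cov e H).card - H.card) := by
      have h3 : 1 ≤ (cov e H).card - H.card := by omega
      calc D * w * k + w ≤ D * w * k + D * w * k := by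
            refine Nat.add_le_add_left ?_ _
            calc w = 1 * w * 1 := by ring
              _ ≤ D * w * k := Nat.mul_le_mul (Nat.mul_le_mul (by omega) le_rfl) (by omega)
        _ = B * 1 := by rw [hB]; ring
        _ ≤ _ := Nat.mul_le_mul_left _ h3
    have h5 : (2 : ℝ) ^ (D * w * k) * (1 / 2 : ℝ) ^ (D * w * k) = 1 := by
      rw [← mul_pow]; norm_num
    calc (2 : ℝ) ^ (D * w * k) * (1 / 2 : ℝ) ^ (B * ((cov e H).card - H.card)) ≤
          (2 : ℝ) ^ (D * w * k) * (1 / 2 : ℝ) ^ (D * w * k + w) := by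
          refine mul_le_mul_of_nonneg_left ?_ (by positivity)
          exact pow_le_pow_of_le_one (by norm_num) (by norm_num) h2
      _ = ((2 : ℝ) ^ (D * w * k) * (1 / 2 : ℝ) ^ (D * w * k)) *
          (1 / 2 : ℝ) ^ w := by rw [pow_add]; ring
      _ = _ := by rw [h5, one_mul]
  -- index sets
  set sB : Finset (Fin C.size × ℕ × Finset (Fin k)) :=
    (Finset.univ.filter (fun i : Fin C.size => C.gateDepth i ≤ d)) ×ˢ
      (Finset.range (W + 1)) ×ˢ
      (Finset.univ.filter (fun H : Finset (Fin k) => k ≤ 3 * H.card ∧ 3 * H.card < 2 * k)) with hsB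
  set sC : Finset (Finset (Fin k)) :=
    Finset.univ.filter (fun H : Finset (Fin k) => H.Nonempty ∧ 3 * H.card < k) with hsC
  -- every outcome is covered
  have hcover : ∀ (v : Fin k → Dom B) (z : ZV k B → Bool),
      (∃ u, Sol e (xof z) u) ∨
      ((∃ t ∈ sB, DD (fun x => pf C t.1 t.2.1 (Ψ x)) e v (xof z) t.2.2) ∨
       (∃ H ∈ sC, DD (fun x => C.wireVal (Ψ x) C.output) e v (xof z) H)) := by
    intro v z
    by_contra hno
    push Not at hno
    obtain ⟨hno1, hno2, hno3⟩ := hno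
    have hne := hcon (xof z) v hno1
    have hmid : ∀ i : Fin C.size, C.gateDepth i ≤ d → ∀ m ≤ Fintype.card V + C.size + 1,
        ∀ H : Finset (Fin k), k ≤ 3 * H.card → 3 * H.card < 2 * k →
        ¬ DD (fun x => pf C i m (Ψ x)) e v (xof z) H := by
      intro i hi m hm H hH1 hH2
      refine hno2 (i, m, H) ?_
      rw [hsB]
      simp only [Finset.mem_product, Finset.mem_filter, Finset.mem_univ, true_and,
        Finset.mem_range]
      exact ⟨hi, by omega, hH1, hH2⟩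
    have hsm := sens_small hk C Ψ hΨ e v (xof z) d hmid C.output hdepth
    have hemp : sens (fun x => C.wireVal (Ψ x) C.output) e v (xof z) = ∅ := by
      by_contra hnemp
      refine hno3 _ ?_ (sens_DD (fun x => C.wireVal (Ψ x) C.output) e v (xof z))
      rw [hsC, Finset.mem_filter]
      exact ⟨Finset.mem_univ _, Finset.nonempty_iff_ne_empty.mpr hnemp, hsm⟩
    apply hne
    exact (eq_of_sens_empty (fun x => C.wireVal (Ψ x) C.output) e v (xof z) hemp
      Finset.univ).symm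
  -- sum over v
  have hsum : (2 : ℝ) ^ (B * k) ≤ (2 : ℝ) ^ (B * k) * (1 / 2 : ℝ) ^ k +
      ((sB.card : ℝ) * ((2 : ℝ) ^ (B * k) * (M * (1 / 2 : ℝ) ^ ((2 * Γ + 1) * w))) +
       (sC.card : ℝ) * ((2 : ℝ) ^ (B * k) * (M * (1 / 2 : ℝ) ^ w))) := by
    have hcard : ((Fintype.card (Fin k → Dom B) : ℕ) : ℝ) = (2 : ℝ) ^ (B * k) := by
      rw [Fintype.card_fun, Fintype.card_fun, Fintype.card_fin, Fintype.card_fin,
        Fintype.card_bool]
      push_cast
      rw [← pow_mul]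
    have h1 : ∀ v : Fin k → Dom B, (1 : ℝ) ≤ (1 / 2 : ℝ) ^ k +
        (∑ t ∈ sB, Pb (un (ZV k B)) (fun z => DD (fun x => pf C t.1 t.2.1 (Ψ x)) e v (xof z) t.2.2)
        + ∑ H ∈ sC, Pb (un (ZV k B))
          (fun z => DD (fun x => C.wireVal (Ψ x) C.output) e v (xof z) H)) := by
      intro v
      calc (1 : ℝ) = PE (un (ZV k B)) (fun _ => 1) := (PE_one un_sum).symm
        _ ≤ Pb (un (ZV k B)) (fun z => (∃ u, Sol e (xof z) u) ∨
            ((∃ t ∈ sB, DD (fun x => pf C t.1 t.2.1 (Ψ x)) e v (xof z) t.2.2) ∨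
            (∃ H ∈ sC, DD (fun x => C.wireVal (Ψ x) C.output) e v (xof z) H))) := by
            unfold Pb
            refine PE_mono un_nonneg fun z => ?_
            rw [if_pos (hcover v z)]
        _ ≤ _ := by
            refine le_trans (Pb_or_le un_nonneg _ _) (add_le_add (Pb_sol e) ?_)
            refine le_trans (Pb_or_le un_nonneg _ _) (add_le_add ?_ ?_)
            · exact Pb_exists_le un_nonneg sB (fun t z =>
                DD (fun x => pf C t.1 t.2.1 (Ψ x)) e v (xof z) t.2.2)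
            · exact Pb_exists_le un_nonneg sC (fun H z =>
                DD (fun x => C.wireVal (Ψ x) C.output) e v (xof z) H)
    have h2 := Finset.sum_le_sum (fun v (_ : v ∈ (Finset.univ : Finset (Fin k → Dom B))) => h1 v)
    rw [Finset.sum_const, Finset.card_univ, nsmul_eq_mul, mul_one, hcard,
      Finset.sum_add_distrib, Finset.sum_const, Finset.card_univ, nsmul_eq_mul, hcard,
      Finset.sum_add_distrib, Finset.sum_comm,
      Finset.sum_comm (s := Finset.univ) (t := sC)] at h2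
    refine le_trans h2 (add_le_add le_rfl (add_le_add ?_ ?_))
    · refine le_trans (Finset.sum_le_sum (fun t ht => ?_)) (le_of_eq (by
        rw [Finset.sum_const, nsmul_eq_mul]))
      rw [hsB] at ht
      simp only [Finset.mem_product, Finset.mem_filter, Finset.mem_univ, true_and,
        Finset.mem_range] at ht
      exact hmidb t.1 ht.1 t.2.1 t.2.2 ht.2.2.1 ht.2.2.2
    · refine le_trans (Finset.sum_le_sum (fun H hH => ?_)) (le_of_eq (by
        rw [Finset.sum_const, nsmul_eq_mul]))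
      rw [hsC, Finset.mem_filter] at hH
      exact hsmallb H hH.2.1 hH.2.2
  -- cardinalities
  have hcB : (sB.card : ℝ) ≤ 2 * 2 ^ k * (2 : ℝ) ^ (2 * Γ * w) := by
    have h1 : sB.card ≤ W * ((W + W) * 2 ^ k) := by
      rw [hsB, Finset.card_product, Finset.card_product, Finset.card_range]
      refine Nat.mul_le_mul ?_ (Nat.mul_le_mul (by omega) ?_)
      · refine le_trans (Finset.card_filter_le _ _) ?_
        rw [Finset.card_univ, Fintype.card_fin]
        omega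
      · refine le_trans (Finset.card_filter_le _ _) ?_
        rw [Finset.card_univ, Fintype.card_finset, Fintype.card_fin]
    have h2 : W * ((W + W) * 2 ^ k) ≤ 2 ^ (Γ * w) * ((2 ^ (Γ * w) + 2 ^ (Γ * w)) * 2 ^ k) :=
      Nat.mul_le_mul hsize (Nat.mul_le_mul_right _ (Nat.add_le_add hsize hsize))
    have h3 : (sB.card : ℝ) ≤
        ((2 ^ (Γ * w) * ((2 ^ (Γ * w) + 2 ^ (Γ * w)) * 2 ^ k) : ℕ) : ℝ) := by
      exact_mod_cast le_trans h1 h2
    refine le_trans h3 (le_of_eq ?_)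
    push_cast
    rw [show 2 * Γ * w = Γ * w + Γ * w by ring, pow_add]
    ring
  have hcC : (sC.card : ℝ) ≤ 2 ^ k := by
    have h1 : sC.card ≤ 2 ^ k := by
      rw [hsC]
      refine le_trans (Finset.card_filter_le _ _) ?_
      rw [Finset.card_univ, Fintype.card_finset, Fintype.card_fin]
    exact_mod_cast h1
  have hP : (0 : ℝ) < (2 : ℝ) ^ (B * k) := by positivity
  have hq0 : (0 : ℝ) ≤ (1 / 2 : ℝ) ^ w := by positivity
  have h10 : (sB.card : ℝ) * ((2 : ℝ) ^ (B * k) * (M * (1 / 2 : ℝ) ^ ((2 * Γ + 1) * w))) ≤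
      (2 : ℝ) ^ (B * k) * (2 * 2 ^ k * M * (1 / 2 : ℝ) ^ w) := by
    have h11 : (2 : ℝ) ^ (2 * Γ * w) * (1 / 2 : ℝ) ^ (2 * Γ * w) = 1 := by
      rw [← mul_pow]; norm_num
    calc (sB.card : ℝ) * ((2 : ℝ) ^ (B * k) * (M * (1 / 2 : ℝ) ^ ((2 * Γ + 1) * w))) ≤
          (2 * 2 ^ k * (2 : ℝ) ^ (2 * Γ * w)) *
          ((2 : ℝ) ^ (B * k) * (M * (1 / 2 : ℝ) ^ ((2 * Γ + 1) * w))) :=
          mul_le_mul_of_nonneg_right hcB (by positivity)
      _ = (2 : ℝ) ^ (B * k) * (2 * 2 ^ k * M * (1 / 2 : ℝ) ^ w) *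
          ((2 : ℝ) ^ (2 * Γ * w) * (1 / 2 : ℝ) ^ (2 * Γ * w)) := by
          rw [show (2 * Γ + 1) * w = 2 * Γ * w + w by ring, pow_add]
          ring
      _ = _ := by rw [h11, mul_one]
  have h12 : (sC.card : ℝ) * ((2 : ℝ) ^ (B * k) * (M * (1 / 2 : ℝ) ^ w)) ≤
      (2 : ℝ) ^ (B * k) * (2 ^ k * M * (1 / 2 : ℝ) ^ w) := by
    calc (sC.card : ℝ) * ((2 : ℝ) ^ (B * k) * (M * (1 / 2 : ℝ) ^ w)) ≤
          2 ^ k * ((2 : ℝ) ^ (B * k) * (M * (1 / 2 : ℝ) ^ w)) :=
          mul_le_mul_of_nonneg_right hcC (by positivity)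
      _ = _ := by ring
  have h13 : (1 / 2 : ℝ) ^ k ≤ 1 / 2 := by
    calc (1 / 2 : ℝ) ^ k ≤ (1 / 2 : ℝ) ^ 1 :=
          pow_le_pow_of_le_one (by norm_num) (by norm_num) (by omega)
      _ = 1 / 2 := by norm_num
  have h14 : 2 ^ (k + 3) * M * (1 / 2 : ℝ) ^ w < 1 := by
    have h15 : (2 : ℝ) ^ w4 ≤ 2 ^ w := pow_le_pow_right₀ (by norm_num) hww4
    have h16 : (2 : ℝ) ^ w * (1 / 2 : ℝ) ^ w = 1 := by rw [← mul_pow]; norm_num
    have h17 : (0 : ℝ) < (1 / 2 : ℝ) ^ w := by positivity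
    calc 2 ^ (k + 3) * M * (1 / 2 : ℝ) ^ w < 2 ^ w * (1 / 2 : ℝ) ^ w :=
          mul_lt_mul_of_pos_right (lt_of_lt_of_le hw4 h15) h17
      _ = 1 := h16
  have h18 : (2 : ℝ) ^ (k + 3) * M * (1 / 2 : ℝ) ^ w = 8 * (2 ^ k * M * (1 / 2 : ℝ) ^ w) := by
    rw [pow_add]; ring
  rw [h18] at h14
  have h19 : (2 : ℝ) ^ (B * k) * (2 * 2 ^ k * M * (1 / 2 : ℝ) ^ w) =
      (2 : ℝ) ^ (B * k) * (2 * (2 ^ k * M * (1 / 2 : ℝ) ^ w)) := by ring
  rw [h19] at h10
  set Q : ℝ := 2 ^ k * M * (1 / 2 : ℝ) ^ w with hQ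
  have h20 : (2 : ℝ) ^ (B * k) ≤ (2 : ℝ) ^ (B * k) * (1 / 2 + 3 * Q) := by
    have h21 : (2 : ℝ) ^ (B * k) * (1 / 2 : ℝ) ^ k ≤ (2 : ℝ) ^ (B * k) * (1 / 2) :=
      mul_le_mul_of_nonneg_left h13 hP.le
    nlinarith
  have h22 : (1 : ℝ) ≤ 1 / 2 + 3 * Q := by
    by_contra h23
    push Not at h23
    nlinarith
  linarith

end Pool.Agent.Lib.MP_01def2_lc
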