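import Mathlib

/-!
# Definitions used in the statement

Boolean circuits with NOT gates and AND/OR gates of unbounded fan-in, the dominating number
of a finite simple graph, constant-depth families of size `n^{o(k)}` and approximation of the
dominating number by such families.
-/

namespace Pool.Agent.Lib.MP_01def2_lc

/-- A gate of a circuit with inputs `V`, allowed to read the inputs and `m` previously computed
gates: a NOT gate, or an AND gate or an OR gate of unbounded fan-in (`cs` is the finite set of
wires entering the gate; the empty AND is the constant `1`, the empty OR the constant `0`). -/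
inductive Gate (V : Type) (m : ℕ) : Type
  | not (c : V ⊕ Fin m) : Gate V m
  | and (cs : Finset (V ⊕ Fin m)) : Gate V m
  | or (cs : Finset (V ⊕ Fin m)) : Gate V m

/-- A Boolean circuit (directed acyclic graph) with input variables `V`: `size` is the number of
its gates, which are listed in a topological order (gate `i` may read the inputs and the gates
with number less than `i`), and `output` is the gate or input variable whose value is output. -/
structure Circuit (V : Type) : Type where
  /-- the number of gates -/
  size : ℕ
  /-- the gates -/
  gate : (i : Fin size) → Gate V i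
  /-- the output -/
  output : V ⊕ Fin size

namespace Circuit

variable {V : Type}

/-- The value of gate `i` of the circuit on the input assignment `x`. -/
def gateVal (C : Circuit V) (x : V → Bool) (i : Fin C.size) : Bool :=
  match C.gate i with
  | .not c => ! (Sum.elim x (fun j : Fin i.1 => C.gateVal x ⟨j.1, j.2.trans i.2⟩) c)
  | .and cs =>
    decide (∀ c ∈ cs, Sum.elim x (fun j : Fin i.1 => C.gateVal x ⟨j.1, j.2.trans i.2⟩) c = true)
  | .or cs =>
    decide (∃ c ∈ cs, Sum.elim x (fun j : Fin i.1 => C.gateVal x ⟨j.1, j.2.trans i.2⟩) c = true)
termination_by i.1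
decreasing_by all_goals exact j.2

/-- The Boolean function computed by the circuit. -/
def eval (C : Circuit V) (x : V → Bool) : Bool := Sum.elim x (C.gateVal x) C.output

/-- The depth of gate `i`: the number of gates on a longest path from an input to gate `i`
(gate `i` itself and NOT gates included). -/
def gateDepth (C : Circuit V) (i : Fin C.size) : ℕ :=
  match C.gate i with
  | .not c => Sum.elim (fun _ => 0) (fun j : Fin i.1 => C.gateDepth ⟨j.1, j.2.trans i.2⟩) c + 1
  | .and cs =>
    cs.sup (Sum.elim (fun _ => 0) (fun j : Fin i.1 => C.gateDepth ⟨j.1, j.2.trans i.2⟩)) + 1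
  | .or cs =>
    cs.sup (Sum.elim (fun _ => 0) (fun j : Fin i.1 => C.gateDepth ⟨j.1, j.2.trans i.2⟩)) + 1
termination_by i.1
decreasing_by all_goals exact j.2

/-- The depth of a circuit: the number of gates on a longest path from an input to the output. -/
def depth (C : Circuit V) : ℕ := Sum.elim (fun _ => 0) C.gateDepth C.output

end Circuit

/-- The `n.choose 2` unordered pairs of distinct vertices of an `n`-vertex graph: the input
variables of a circuit that reads `n`-vertex graphs. -/
abbrev Pairs (n : ℕ) : Type := {e : Sym2 (Fin n) // ¬ e.IsDiag}

open scoped Classical in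
/-- The adjacency bits of a graph. -/
noncomputable def adjBits {n : ℕ} (G : SimpleGraph (Fin n)) : Pairs n → Bool :=
  fun e => decide (e.1 ∈ G.edgeSet)

/-- `D` is a dominating set of `G`: every vertex lies in `D` or has a neighbour in `D`. -/
def IsDominatingSet {V : Type} (G : SimpleGraph V) (D : Finset V) : Prop :=
  ∀ v, v ∈ D ∨ ∃ u ∈ D, G.Adj v u

/-- The dominating number of `G`: the least size of a dominating set. -/
noncomputable def dominatingNumber {V : Type} (G : SimpleGraph V) : ℕ :=
  sInf {m | ∃ D : Finset V, D.card = m ∧ IsDominatingSet G D}

/-- The family `C` is constant-depth of size `n^{o(k)}`: there are a constant `d` and functions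
`h` and `g` with `g(k) = o(k)` such that, for all `n, k ≥ 1`, the circuit `C n k` has depth at
most `d` and size at most `h(k) * n^{g(k)}`. (No computability of `h` and `g` is required.) -/
def IsConstantDepthOfSizeLittleO (C : (n k : ℕ) → Circuit (Pairs n)) : Prop :=
  ∃ (d : ℕ) (h : ℕ → ℕ) (g : ℕ → ℝ),
    (g =o[Filter.atTop] fun k : ℕ => (k : ℝ)) ∧
    ∀ n k : ℕ, 1 ≤ n → 1 ≤ k →
      (C n k).depth ≤ d ∧ ((C n k).size : ℝ) ≤ (h k : ℝ) * (n : ℝ) ^ (g k)

/-- The family `C` approximates the dominating number with ratio `f(k)`: for all `n, k ≥ 1` and
every `n`-vertex graph `G`, the circuit `C n k` outputs `1` on `G` if the dominating number is at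
most `k`, and `0` if it is larger than `f(k) * k`. -/
def ApproximatesDominatingNumber (C : (n k : ℕ) → Circuit (Pairs n)) (f : ℕ → ℕ) : Prop :=
  ∀ n k : ℕ, 1 ≤ n → 1 ≤ k → ∀ G : SimpleGraph (Fin n),
    (dominatingNumber G ≤ k → (C n k).eval (adjBits G) = true) ∧
    (f k * k < dominatingNumber G → (C n k).eval (adjBits G) = false)

end Pool.Agent.Lib.MP_01def2_lc
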