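import Pool.Agent.Lib.MP_01def2_lc.Junta
import Pool.Agent.Lib.MP_01def2_lc.Defs

/-!
Constant-depth circuits become juntas under random restrictions.
-/

namespace Pool.Agent.Lib.MP_01def2_lc

open Finset

theorem PE_comp {X : Type} [Fintype X] (q1 q2 : ℝ) (F : (X → Option Bool) → ℝ) :
    PE (wt X q1) (fun ρ1 => PE (wt X q2) (fun ρ2 => F (compR ρ1 ρ2))) =
      PE (wt X (q1 * q2)) F := by
  classical
  rw [PE_PE]
  have : (fun τ : X → Option Bool × Option Bool =>
      F (compR (fun i => (τ i).1) (fun i => (τ i).2))) =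
      fun τ => F (fun i => (fun _ (ab : Option Bool × Option Bool) => ab.1.or ab.2) i (τ i)) := by
    funext τ
    rfl
  rw [this]
  refine PE_map (fun i (ab : Option Bool × Option Bool) => wt X q1 i ab.1 * wt X q2 i ab.2)
    (wt X (q1 * q2)) (fun _ (ab : Option Bool × Option Bool) => ab.1.or ab.2) ?_ F
  intro i c
  rw [Finset.sum_filter, Fintype.sum_prod_type]
  rcases c with _ | b
  · simp [Fintype.sum_option, wt]
  · cases b
    · simp [Fintype.sum_option, wt]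
      ring
    · simp [Fintype.sum_option, wt]
      ring

theorem Pb_comp {X : Type} [Fintype X] (q1 q2 : ℝ) (P : (X → Option Bool) → Prop) :
    PE (wt X q1) (fun ρ1 => Pb (wt X q2) (fun ρ2 => P (compR ρ1 ρ2))) =
      Pb (wt X (q1 * q2)) P := by
  unfold Pb
  exact PE_comp q1 q2 (fun ρ => @ite ℝ (P ρ) (Classical.propDecidable _) 1 0)

/-- further restriction keeps juntas -/
theorem Pb_junta_comp {X : Type} [Fintype X] {q1 q2 : ℝ} (h1 : 0 ≤ q1) (h1' : q1 ≤ 1)
    (h2 : 0 ≤ q2) (h2' : q2 ≤ 1) (b : ℕ) (g : (X → Bool) → Bool) :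
    Pb (wt X (q1 * q2)) (fun ρ => ¬ Junta b (fun z => g (rs ρ z))) ≤
      Pb (wt X q1) (fun ρ => ¬ Junta b (fun z => g (rs ρ z))) := by
  classical
  rw [← Pb_comp]
  refine PE_mono (wt_nonneg h1 h1') fun ρ1 => ?_
  by_cases hj : Junta b (fun z => g (rs ρ1 z))
  · rw [Pb_eq_zero]
    · split_ifs <;> norm_num
    · intro ρ2
      rw [not_not]
      simp only [rs_compR]
      exact hj.rs ρ2
  · rw [if_pos hj]
    exact Pb_le_one (wt_nonneg h2 h2') (wt_sum q2) _

open scoped Classical in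
theorem and_step {X : Type} [Fintype X] {I : Type} (c b w K : ℕ) {q1 : ℝ} (h1 : 0 ≤ q1)
    (h1' : q1 ≤ 1) (s : Finset I) (g : I → (X → Bool) → Bool) (δ : ℝ)
    (hfss : ∀ (g' : I → (X → Bool) → Bool), (∀ i ∈ s, Junta c (g' i)) →
      Pb (wt X ((1 / 2 : ℝ) ^ w))
      (fun ρ => ¬ Junta b (fun y => decide (∀ i ∈ s, g' i (rs ρ y) = true))) ≤
        (1 / 2 : ℝ) ^ (K * w))
    (hg : ∀ i ∈ s, Pb (wt X q1) (fun ρ => ¬ Junta c (fun z => g i (rs ρ z))) ≤ δ) :
    Pb (wt X (q1 * (1 / 2 : ℝ) ^ w))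
      (fun ρ => ¬ Junta b (fun z => decide (∀ i ∈ s, g i (rs ρ z) = true))) ≤
      s.card * δ + (1 / 2 : ℝ) ^ (K * w) := by
  rw [← Pb_comp]
  have hq0 : (0 : ℝ) ≤ (1 / 2 : ℝ) ^ w := by positivity
  have hq1 : (1 / 2 : ℝ) ^ w ≤ 1 := pow_le_one₀ (by norm_num) (by norm_num)
  have hstep : PE (wt X q1) (fun ρ1 => Pb (wt X ((1 / 2 : ℝ) ^ w)) (fun ρ2 =>
      ¬ Junta b (fun z => decide (∀ i ∈ s, g i (rs (compR ρ1 ρ2) z) = true)))) ≤
      PE (wt X q1) (fun ρ1 => (@ite ℝ (∃ i ∈ s, ¬ Junta c (fun z => g i (rs ρ1 z)))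
        (Classical.propDecidable _) 1 0) + (1 / 2 : ℝ) ^ (K * w)) := by
    refine PE_mono (wt_nonneg h1 h1') fun ρ1 => ?_
    by_cases hE : ∃ i ∈ s, ¬ Junta c (fun z => g i (rs ρ1 z))
    · rw [if_pos hE]
      refine le_trans (Pb_le_one (wt_nonneg hq0 hq1) (wt_sum _) _) ?_
      have : (0 : ℝ) ≤ (1 / 2 : ℝ) ^ (K * w) := by positivity
      linarith
    · rw [if_neg hE, zero_add]
      push Not at hE
      simp only [rs_compR]
      exact hfss (fun i z => g i (rs ρ1 z)) hE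
  refine le_trans hstep ?_
  rw [PE_add, PE_const (wt_sum q1)]
  refine add_le_add ?_ le_rfl
  refine le_trans (Pb_exists_le (wt_nonneg h1 h1') s
    (fun i ρ1 => ¬ Junta c (fun z => g i (rs ρ1 z)))) ?_
  refine le_trans (Finset.sum_le_sum hg) ?_
  rw [Finset.sum_const, nsmul_eq_mul]

/-- value of a wire -/
def Circuit.wireVal {V : Type} (C : Circuit V) (x : V → Bool) (c : V ⊕ Fin C.size) : Bool :=
  Sum.elim x (C.gateVal x) c

/-- depth of a wire -/
def Circuit.wireDepth {V : Type} (C : Circuit V) (c : V ⊕ Fin C.size) : ℕ :=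
  Sum.elim (fun _ => 0) C.gateDepth c

/-- lift of a local wire -/
def liftW {V : Type} {C : Circuit V} (i : Fin C.size) (c : V ⊕ Fin i.1) : V ⊕ Fin C.size :=
  Sum.map id (fun j => ⟨j.1, j.2.trans i.2⟩) c

theorem liftW_injective {V : Type} {C : Circuit V} (i : Fin C.size) :
    Function.Injective (liftW (C := C) i) := by
  unfold liftW
  refine Function.Injective.sumMap Function.injective_id ?_
  intro a b h
  simp only [Fin.mk.injEq] at h
  exact Fin.ext h

theorem elim_liftW {V : Type} (C : Circuit V) (x : V → Bool) (i : Fin C.size) (c : V ⊕ Fin i.1) :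
    Sum.elim x (fun j : Fin i.1 => C.gateVal x ⟨j.1, j.2.trans i.2⟩) c =
      C.wireVal x (liftW i c) := by
  rcases c with v | j <;> rfl

theorem elim_liftW_depth {V : Type} (C : Circuit V) (i : Fin C.size) (c : V ⊕ Fin i.1) :
    Sum.elim (fun _ => 0) (fun j : Fin i.1 => C.gateDepth ⟨j.1, j.2.trans i.2⟩) c =
      C.wireDepth (liftW i c) := by
  rcases c with v | j <;> rfl

theorem gateVal_not {V : Type} {C : Circuit V} {i : Fin C.size} {c : V ⊕ Fin i.1}
    (h : C.gate i = .not c) (x : V → Bool) :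
    C.gateVal x i = ! C.wireVal x (liftW i c) := by
  rw [Circuit.gateVal, h]
  simp only [elim_liftW]

theorem gateVal_and {V : Type} {C : Circuit V} {i : Fin C.size} {cs : Finset (V ⊕ Fin i.1)}
    (h : C.gate i = .and cs) (x : V → Bool) :
    C.gateVal x i = decide (∀ c ∈ cs, C.wireVal x (liftW i c) = true) := by
  rw [Circuit.gateVal, h]
  simp only [elim_liftW]

theorem gateVal_or {V : Type} {C : Circuit V} {i : Fin C.size} {cs : Finset (V ⊕ Fin i.1)}
    (h : C.gate i = .or cs) (x : V → Bool) :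
    C.gateVal x i = decide (∃ c ∈ cs, C.wireVal x (liftW i c) = true) := by
  rw [Circuit.gateVal, h]
  simp only [elim_liftW]

theorem gateDepth_not {V : Type} {C : Circuit V} {i : Fin C.size} {c : V ⊕ Fin i.1}
    (h : C.gate i = .not c) :
    C.wireDepth (liftW i c) < C.gateDepth i := by
  rw [Circuit.gateDepth, h]
  simp only [elim_liftW_depth]
  exact Nat.lt_succ_self _

theorem gateDepth_and {V : Type} {C : Circuit V} {i : Fin C.size} {cs : Finset (V ⊕ Fin i.1)}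
    (h : C.gate i = .and cs) {c : V ⊕ Fin i.1} (hc : c ∈ cs) :
    C.wireDepth (liftW i c) < C.gateDepth i := by
  rw [Circuit.gateDepth, h, ← elim_liftW_depth]
  exact Nat.lt_succ_of_le (Finset.le_sup (f := Sum.elim (fun _ => 0)
    (fun j : Fin i.1 => C.gateDepth ⟨j.1, j.2.trans i.2⟩)) hc)

theorem gateDepth_or {V : Type} {C : Circuit V} {i : Fin C.size} {cs : Finset (V ⊕ Fin i.1)}
    (h : C.gate i = .or cs) {c : V ⊕ Fin i.1} (hc : c ∈ cs) :
    C.wireDepth (liftW i c) < C.gateDepth i := by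
  rw [Circuit.gateDepth, h, ← elim_liftW_depth]
  exact Nat.lt_succ_of_le (Finset.le_sup (f := Sum.elim (fun _ => 0)
    (fun j : Fin i.1 => C.gateDepth ⟨j.1, j.2.trans i.2⟩)) hc)

theorem gateDepth_pos {V : Type} {C : Circuit V} (i : Fin C.size) : 0 < C.gateDepth i := by
  cases h : C.gate i with
  | not c => exact lt_of_le_of_lt (Nat.zero_le _) (gateDepth_not h)
  | and cs => rw [Circuit.gateDepth, h]; exact Nat.succ_pos _
  | or cs => rw [Circuit.gateDepth, h]; exact Nat.succ_pos _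

/-- the OR of a set of functions as a negated AND -/
theorem decide_exists_eq {I : Type} (s : Finset I) (v : I → Bool) :
    decide (∃ i ∈ s, v i = true) = ! decide (∀ i ∈ s, (! v i) = true) := by
  by_cases h : ∃ i ∈ s, v i = true
  · have h2 : ¬ ∀ i ∈ s, (! v i) = true := by
      push Not
      obtain ⟨i, hi, hv⟩ := h
      exact ⟨i, hi, by simp [hv]⟩
    rw [decide_eq_true h, decide_eq_false h2]
    rfl
  · have h2 : ∀ i ∈ s, (! v i) = true := by
      push Not at h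
      intro i hi
      simpa using h i hi
    rw [decide_eq_false h, decide_eq_true h2]
    rfl

theorem card_cs_le {V : Type} [Fintype V] {C : Circuit V} {i : Fin C.size}
    (cs : Finset (V ⊕ Fin i.1)) : cs.card ≤ Fintype.card V + C.size + 1 := by
  refine le_trans (Finset.card_le_univ cs) ?_
  rw [Fintype.card_sum, Fintype.card_fin]
  have := i.2
  omega

/-- `AND` over a set of wires that are juntas with high probability -/
theorem and_step' {X : Type} [Fintype X] {I : Type} (c b w K : ℕ) {q1 : ℝ} (h1 : 0 ≤ q1)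
    (h1' : q1 ≤ 1) (s : Finset I) (g : I → (X → Bool) → Bool) (δ : ℝ)
    (hfss : ∀ (g' : I → (X → Bool) → Bool), (∀ i ∈ s, Junta c (g' i)) →
      Pb (wt X ((1 / 2 : ℝ) ^ w))
      (fun ρ => ¬ Junta b (fun y => decide (∀ i ∈ s, g' i (rs ρ y) = true))) ≤
        (1 / 2 : ℝ) ^ (K * w))
    (hg : ∀ i ∈ s, Pb (wt X q1) (fun ρ => ¬ Junta c (fun z => g i (rs ρ z))) ≤ δ) :
    Pb (wt X (q1 * (1 / 2 : ℝ) ^ w))
      (fun ρ => ¬ Junta b (fun z => decide (∀ i ∈ s, g i (rs ρ z) = true))) ≤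
      s.card * δ + (1 / 2 : ℝ) ^ (K * w) := by
  classical
  convert and_step c b w K h1 h1' s g δ (by convert hfss) hg

theorem or_step {X : Type} [Fintype X] {I : Type} (c b w K : ℕ) {q1 : ℝ} (h1 : 0 ≤ q1)
    (h1' : q1 ≤ 1) (s : Finset I) (g : I → (X → Bool) → Bool) (δ : ℝ)
    (hfss : ∀ (g' : I → (X → Bool) → Bool), (∀ i ∈ s, Junta c (g' i)) →
      Pb (wt X ((1 / 2 : ℝ) ^ w))
      (fun ρ => ¬ Junta b (fun y => decide (∀ i ∈ s, g' i (rs ρ y) = true))) ≤
        (1 / 2 : ℝ) ^ (K * w))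
    (hg : ∀ i ∈ s, Pb (wt X q1) (fun ρ => ¬ Junta c (fun z => g i (rs ρ z))) ≤ δ) :
    Pb (wt X (q1 * (1 / 2 : ℝ) ^ w))
      (fun ρ => ¬ Junta b (fun z => decide (∃ i ∈ s, g i (rs ρ z) = true))) ≤
      s.card * δ + (1 / 2 : ℝ) ^ (K * w) := by
  have h := and_step' c b w K h1 h1' s (fun i z => ! g i z) δ hfss (by
    intro i hi
    refine le_trans (Pb_mono (wt_nonneg h1 h1') ?_) (hg i hi)
    intro ρ hρ hj
    exact hρ hj.not)
  refine le_trans (Pb_mono (wt_nonneg ?_ ?_) ?_) h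
  · positivity
  · have : (1 / 2 : ℝ) ^ w ≤ 1 := pow_le_one₀ (by norm_num) (by norm_num)
    have h0 : (0 : ℝ) ≤ (1 / 2 : ℝ) ^ w := by positivity
    nlinarith
  · intro ρ hρ hj
    apply hρ
    simp only [decide_exists_eq]
    exact hj.not

/-- **Constant-depth circuits become juntas.** -/
theorem wire_junta (b1 K : ℕ) : ∀ ℓ : ℕ, ∃ b w0 : ℕ, ∀ w ≥ w0, ∀ (X V : Type) [Fintype X]
    [Fintype V] (C : Circuit V) (ψ : (X → Bool) → V → Bool),
    (∀ v, Pb (wt X ((1 / 2 : ℝ) ^ w)) (fun ρ => ¬ Junta b1 (fun z => ψ (rs ρ z) v)) ≤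
      (1 / 2 : ℝ) ^ (K * w)) →
    ∀ c : V ⊕ Fin C.size, C.wireDepth c ≤ ℓ →
      Pb (wt X (((1 / 2 : ℝ) ^ w) ^ (ℓ + 1)))
        (fun ρ => ¬ Junta b (fun z => C.wireVal (ψ (rs ρ z)) c)) ≤
      (ℓ + 1) * (Fintype.card V + C.size + 1 : ℕ) ^ ℓ * (1 / 2 : ℝ) ^ (K * w) := by
  intro ℓ
  induction ℓ with
  | zero =>
    refine ⟨b1, 0, fun w _ X V _ _ C ψ hbase c hc => ?_⟩
    rcases c with v | i
    · simpa [Circuit.wireVal] using hbase v
    · exfalso
      have := gateDepth_pos i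
      simp only [Circuit.wireDepth, Sum.elim_inr] at hc
      omega
  | succ ℓ ih =>
    obtain ⟨b, w0, hb⟩ := ih
    obtain ⟨b', w0', hb'⟩ := fss b K
    refine ⟨max b b', max w0 w0', fun w hw X V _ _ C ψ hbase c hc => ?_⟩
    have hw1 : w ≥ w0 := le_trans (le_max_left _ _) hw
    have hw2 : w ≥ w0' := le_trans (le_max_right _ _) hw
    have IH := hb w hw1 X V C ψ hbase
    have hfss := fun (I : Type) (s : Finset I) => hb' w hw2 X I s
    set q : ℝ := (1 / 2 : ℝ) ^ w with hq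
    have hq0 : 0 ≤ q := by positivity
    have hq1 : q ≤ 1 := pow_le_one₀ (by norm_num) (by norm_num)
    have hQ0 : 0 ≤ q ^ (ℓ + 1) := by positivity
    have hQ1 : q ^ (ℓ + 1) ≤ 1 := pow_le_one₀ hq0 hq1
    set W : ℕ := Fintype.card V + C.size + 1 with hW
    have hW1 : (1 : ℝ) ≤ (W : ℝ) := by
      have : 1 ≤ W := by omega
      exact_mod_cast this
    set ε : ℝ := (1 / 2 : ℝ) ^ (K * w) with hε
    have hε0 : 0 ≤ ε := by positivity
    have hWℓ : (1 : ℝ) ≤ (W : ℝ) ^ (ℓ + 1) := one_le_pow₀ hW1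
    have hWℓ' : (W : ℝ) ^ ℓ ≤ (W : ℝ) ^ (ℓ + 1) := pow_le_pow_right₀ hW1 (Nat.le_succ _)
    have hδ : ((ℓ : ℝ) + 1) * (W : ℝ) ^ ℓ * ε ≤ (((ℓ + 1 : ℕ) : ℝ) + 1) * (W : ℝ) ^ (ℓ + 1) * ε := by
      refine mul_le_mul_of_nonneg_right ?_ hε0
      push_cast
      have : (0 : ℝ) ≤ ℓ := Nat.cast_nonneg _
      nlinarith
    have hstep : ∀ m : ℕ, m ≤ W → (m : ℝ) * (((ℓ : ℝ) + 1) * (W : ℝ) ^ ℓ * ε) + ε ≤
        (((ℓ + 1 : ℕ) : ℝ) + 1) * (W : ℝ) ^ (ℓ + 1) * ε := by
      intro m hm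
      have hm' : (m : ℝ) ≤ W := by exact_mod_cast hm
      have h1 : (m : ℝ) * (((ℓ : ℝ) + 1) * (W : ℝ) ^ ℓ * ε) ≤
          (W : ℝ) * (((ℓ : ℝ) + 1) * (W : ℝ) ^ ℓ * ε) :=
        mul_le_mul_of_nonneg_right hm' (by positivity)
      have h2 : ε ≤ (W : ℝ) ^ (ℓ + 1) * ε := by nlinarith
      have h3 : (W : ℝ) * (((ℓ : ℝ) + 1) * (W : ℝ) ^ ℓ * ε) =
          ((ℓ : ℝ) + 1) * (W : ℝ) ^ (ℓ + 1) * ε := by ring
      push_cast
      linarith
    -- general upgrade of a shallow wire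
    have shallow : ∀ (g : (X → Bool) → Bool), Pb (wt X (q ^ (ℓ + 1)))
        (fun ρ => ¬ Junta b (fun z => g (rs ρ z))) ≤ ((ℓ : ℝ) + 1) * (W : ℝ) ^ ℓ * ε →
        Pb (wt X (q ^ (ℓ + 1 + 1))) (fun ρ => ¬ Junta (max b b') (fun z => g (rs ρ z))) ≤
        (((ℓ + 1 : ℕ) : ℝ) + 1) * (W : ℝ) ^ (ℓ + 1) * ε := by
      intro g hg
      rw [pow_succ q (ℓ + 1)]
      refine le_trans (Pb_junta_comp hQ0 hQ1 hq0 hq1 _ g) (le_trans (le_trans (Pb_mono
        (wt_nonneg hQ0 hQ1) ?_) hg) hδ)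
      intro ρ hρ hj
      exact hρ (hj.mono (le_max_left _ _))
    rcases c with v | i
    · exact shallow (fun z => ψ z v) (IH (Sum.inl v) (by simp [Circuit.wireDepth]))
    · change C.gateDepth i ≤ ℓ + 1 at hc
      change Pb (wt X (q ^ (ℓ + 1 + 1)))
        (fun ρ => ¬ Junta (max b b') (fun z => C.gateVal (ψ (rs ρ z)) i)) ≤ _
      cases h : C.gate i with
      | not c =>
        have h1 := IH (liftW i c) (by have := gateDepth_not h; omega)
        simp only [gateVal_not h]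
        refine shallow (fun z => ! C.wireVal (ψ z) (liftW i c)) ?_
        refine le_trans (Pb_mono (wt_nonneg hQ0 hQ1) ?_) h1
        intro ρ hρ hj
        exact hρ hj.not
      | and cs =>
        simp only [gateVal_and h]
        rw [pow_succ q (ℓ + 1)]
        have h2 := and_step' b b' w K hQ0 hQ1 cs (fun c z => C.wireVal (ψ z) (liftW i c))
          (((ℓ : ℝ) + 1) * (W : ℝ) ^ ℓ * ε) (by
            intro g' hg'
            convert hfss _ cs g' hg')
          (fun c hc' => IH (liftW i c) (by have := gateDepth_and h hc'; omega))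
        refine le_trans (Pb_mono (wt_nonneg (by positivity) ?_) ?_) (le_trans h2
          (hstep _ (card_cs_le cs)))
        · exact mul_le_one₀ hQ1 hq0 hq1
        · intro ρ hρ hj
          exact hρ (hj.mono (le_max_right _ _))
      | or cs =>
        simp only [gateVal_or h]
        rw [pow_succ q (ℓ + 1)]
        have h2 := or_step b b' w K hQ0 hQ1 cs (fun c z => C.wireVal (ψ z) (liftW i c))
          (((ℓ : ℝ) + 1) * (W : ℝ) ^ ℓ * ε) (by
            intro g' hg'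
            convert hfss _ cs g' hg')
          (fun c hc' => IH (liftW i c) (by have := gateDepth_or h hc'; omega))
        refine le_trans (Pb_mono (wt_nonneg (by positivity) ?_) ?_) (le_trans h2
          (hstep _ (card_cs_le cs)))
        · exact mul_le_one₀ hQ1 hq0 hq1
        · intro ρ hρ hj
          exact hρ (hj.mono (le_max_right _ _))

end Pool.Agent.Lib.MP_01def2_lc
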