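import Pool.Agent.Lib.MP_01def2_lc.Core

/-!
The gap-producing reduction to the dominating number.
-/

namespace Pool.Agent.Lib.MP_01def2_lc

open Finset

section
variable (k B F : ℕ)

/-- elements to be covered -/
abbrev UU : Type := Fin k ⊕ (Fin k × Pos × Fin k × Pos × Fin B × Bool)
/-- hash indices -/
abbrev HI : Type := Fin F × Fin F → Pos × Fin B
/-- hash values -/
abbrev HV : Type := Fin F × Fin F → Bool
/-- the element side of the reduction -/
abbrev RR : Type := HI B F × ((Fin k → HV F) → UU k B) × Fin (F + 1)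
/-- vertices of the graph -/
abbrev VG : Type := Tup k B ⊕ RR k B F

end

section
variable {k B F : ℕ}

/-- the covering relation -/
def covers (e : Fin k → Pos → Fin k) (t : Tup k B) : UU k B → Prop
  | Sum.inl j => t.1 = j
  | Sum.inr (j, a, j', a', i, β) =>
    e j a ≠ e j' a' ∨ (t.1 = j ∧ t.2 a i = β) ∨ (t.1 = j' ∧ t.2 a' i ≠ β)

/-- the hash function with index `ι` -/
def hash (ι : HI B F) (t : Tup k B) : HV F := fun p => t.2 (ι p).1 (ι p).2

/-- fixed part of the adjacency relation -/
def Rel (e : Fin k → Pos → Fin k) (t : Tup k B) (r : RR k B F) : Prop :=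
  ∃ a : Fin k → HV F, a t.1 = hash r.1 t ∧ covers e t (r.2.1 a)

/-- the graph -/
def GG (F : ℕ) (e : Fin k → Pos → Fin k) (x : Tup k B → Bool) : SimpleGraph (VG k B F) where
  Adj p p' := match p, p' with
    | Sum.inl t, Sum.inl t' => t ≠ t'
    | Sum.inl t, Sum.inr r => x t = true ∧ Rel e t r
    | Sum.inr r, Sum.inl t => x t = true ∧ Rel e t r
    | Sum.inr _, Sum.inr _ => False
  symm := by
    refine ⟨?_⟩
    rintro (t | r) (t' | r') h
    · exact h.symm
    · exact h
    · exact h
    · exact h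
  loopless := by
    refine ⟨?_⟩
    rintro (t | r) h
    · exact h rfl
    · exact h

theorem dom_le_of_sol (hk : 1 ≤ k) (e : Fin k → Pos → Fin k) (x : Tup k B → Bool)
    (v : Fin k → Dom B) (hv : Sol e x v) :
    ∃ Ds : Finset (VG k B F), Ds.card ≤ k ∧ IsDominatingSet (GG F e x) Ds := by
  classical
  refine ⟨Finset.univ.image (fun j : Fin k => (Sum.inl (tup e v j) : VG k B F)), ?_, ?_⟩
  · refine le_trans Finset.card_image_le ?_
    simp
  · rintro (t | ⟨ι, φ, c⟩)
    · by_cases h : ∃ j, t = tup e v j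
      · left
        obtain ⟨j, rfl⟩ := h
        exact Finset.mem_image_of_mem _ (Finset.mem_univ _)
      · right
        push Not at h
        refine ⟨Sum.inl (tup e v ⟨0, hk⟩), Finset.mem_image_of_mem _ (Finset.mem_univ _), ?_⟩
        exact h _
    · right
      -- the element to be covered
      have key : ∃ j, covers e (tup e v j) (φ (fun j => hash ι (tup e v j))) := by
        rcases φ (fun j => hash ι (tup e v j)) with j | ⟨j, a, j', a', i, β⟩
        · exact ⟨j, rfl⟩
        · by_cases he : e j a = e j' a'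
          · by_cases hb : v (e j a) i = β
            · exact ⟨j, Or.inr (Or.inl ⟨rfl, hb⟩)⟩
            · refine ⟨j', Or.inr (Or.inr ⟨rfl, ?_⟩)⟩
              show v (e j' a') i ≠ β
              rw [← he]
              exact hb
          · exact ⟨j, Or.inl he⟩
      obtain ⟨j, hj⟩ := key
      refine ⟨Sum.inl (tup e v j), Finset.mem_image_of_mem _ (Finset.mem_univ _), ?_⟩
      exact ⟨hv j, _, rfl, hj⟩

theorem exists_hash (hB : 0 < B) (X : Finset (Tup k B)) (hX : X.card ≤ F) :
    ∃ ι : HI B F, ∀ t ∈ X, ∀ t' ∈ X, t.1 = t'.1 → hash ι t = hash ι t' → t = t' := by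
  classical
  rcases X.eq_empty_or_nonempty with h | ⟨t0, ht0⟩
  · exact ⟨fun _ => (none, ⟨0, hB⟩), by simp [h]⟩
  · obtain ⟨emb⟩ : Nonempty (X ↪ Fin F) := by
      apply Function.Embedding.nonempty_of_card_le
      simpa using hX
    let g : Fin F → Tup k B := fun i => if h : ∃ t : X, emb t = i then (h.choose).1 else t0
    have hg : ∀ t (ht : t ∈ X), g (emb ⟨t, ht⟩) = t := by
      intro t ht
      have hex : ∃ t' : X, emb t' = emb ⟨t, ht⟩ := ⟨_, rfl⟩
      simp only [g]
      rw [dif_pos hex]
      have h2 := emb.injective hex.choose_spec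
      rw [h2]
    let ι : HI B F := fun p =>
      if h : ∃ r : Pos × Fin B, (g p.1).2 r.1 r.2 ≠ (g p.2).2 r.1 r.2 then h.choose
      else (none, ⟨0, hB⟩)
    refine ⟨ι, ?_⟩
    intro t ht t' ht' h1 h2
    have h3 := congrFun h2 (emb ⟨t, ht⟩, emb ⟨t', ht'⟩)
    refine Prod.ext h1 ?_
    by_contra hne
    have hex : ∃ r : Pos × Fin B, (g (emb ⟨t, ht⟩)).2 r.1 r.2 ≠ (g (emb ⟨t', ht'⟩)).2 r.1 r.2 := by
      rw [hg t ht, hg t' ht']
      by_contra hall
      push Not at hall
      apply hne
      funext a i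
      exact hall (a, i)
    have h4 := hex.choose_spec
    simp only [hash, ι] at h3
    rw [dif_pos hex] at h3
    apply h4
    have e1 := congrArg (fun q : Tup k B => q.2 hex.choose.1 hex.choose.2) (hg t ht)
    have e2 := congrArg (fun q : Tup k B => q.2 hex.choose.1 hex.choose.2) (hg t' ht')
    exact e1.trans (h3.trans e2.symm)

theorem sol_of_dom (hB : 0 < B) (e : Fin k → Pos → Fin k) (x : Tup k B → Bool)
    (Ds : Finset (VG k B F)) (hcard : Ds.card ≤ F) (hdom : IsDominatingSet (GG F e x) Ds) :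
    ∃ v, Sol e x v := by
  classical
  set X : Finset (Tup k B) := Finset.univ.filter (fun t => (Sum.inl t : VG k B F) ∈ Ds) with hX
  have hXc : X.card ≤ F := by
    refine le_trans ?_ hcard
    refine Finset.card_le_card_of_injOn (fun t => (Sum.inl t : VG k B F)) ?_ ?_
    · intro t ht
      have : t ∈ X := by simpa using ht
      rw [hX, Finset.mem_filter] at this
      exact this.2
    · intro t _ t' _ h
      exact Sum.inl_injective h
  obtain ⟨ι, hι⟩ := exists_hash hB X hXc
  -- there is a hash value such that the corresponding part of `X` covers everything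
  have hcov : ∃ a : Fin k → HV F, ∀ u : UU k B, ∃ t ∈ X, x t = true ∧ a t.1 = hash ι t ∧
      covers e t u := by
    by_contra hcon
    push Not at hcon
    choose φ hφ using hcon
    have hall : ∀ c : Fin (F + 1), (Sum.inr (ι, φ, c) : VG k B F) ∈ Ds := by
      intro c
      rcases hdom (Sum.inr (ι, φ, c)) with h | ⟨p, hp, hadj⟩
      · exact h
      · exfalso
        rcases p with t | r
        · obtain ⟨hx, a, ha, hc⟩ := hadj
          refine hφ a t ?_ hx ha hc
          rw [hX, Finset.mem_filter]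
          exact ⟨Finset.mem_univ _, hp⟩
        · exact hadj
    have h2 : (Finset.univ : Finset (Fin (F + 1))).card ≤ Ds.card := by
      refine Finset.card_le_card_of_injOn
        (fun c => (Sum.inr (ι, φ, c) : VG k B F)) (fun c _ => hall c) ?_
      intro c _ c' _ h
      have h3 := Sum.inr_injective h
      exact congrArg (fun r : RR k B F => r.2.2) h3
    rw [Finset.card_univ, Fintype.card_fin] at h2
    omega
  obtain ⟨a, ha⟩ := hcov
  choose τ hτX hτx hτa hτc using fun j : Fin k => ha (Sum.inl j)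
  have hτ1 : ∀ j, (τ j).1 = j := fun j => hτc j
  have huniq : ∀ t ∈ X, a t.1 = hash ι t → t = τ t.1 := by
    intro t ht hta
    refine hι t ht _ (hτX _) (hτ1 _).symm ?_
    rw [← hta, ← hτa t.1, hτ1]
  have hcons : ∀ j b j' b', e j b = e j' b' → (τ j).2 b = (τ j').2 b' := by
    intro j b j' b' he
    funext i
    obtain ⟨t, ht, _, hta, hc⟩ := ha (Sum.inr (j, b, j', b', i, ! ((τ j).2 b i)))
    have h1 := huniq t ht hta
    rcases hc with h | ⟨h2, h3⟩ | ⟨h2, h3⟩
    · exact absurd he h
    · exfalso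
      rw [h2] at h1
      rw [h1] at h3
      cases hh : (τ j).2 b i <;> simp [hh] at h3
    · rw [h2] at h1
      rw [h1] at h3
      cases hh : (τ j).2 b i <;> cases hh' : (τ j').2 b' i <;> simp [hh, hh'] at h3 ⊢
  let v : Fin k → Dom B := fun u =>
    if h : ∃ p : Fin k × Pos, e p.1 p.2 = u then (τ h.choose.1).2 h.choose.2 else fun _ => false
  have hv : ∀ j b, v (e j b) = (τ j).2 b := by
    intro j b
    have hex : ∃ p : Fin k × Pos, e p.1 p.2 = e j b := ⟨(j, b), rfl⟩
    simp only [v]
    rw [dif_pos hex]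
    exact hcons _ _ _ _ hex.choose_spec
  refine ⟨v, ?_⟩
  intro j
  have : tup e v j = τ j := by
    unfold tup
    refine Prod.ext (hτ1 j).symm ?_
    funext b
    exact hv j b
  rw [this]
  exact hτx j

end

/-- transport to `Fin N` -/
noncomputable def GX {k B F N : ℕ} (E : VG k B F ≃ Fin N) (e : Fin k → Pos → Fin k)
    (x : Tup k B → Bool) : SimpleGraph (Fin N) := (GG F e x).comap E.symm

theorem GX_adj {k B F N : ℕ} (E : VG k B F ≃ Fin N) (e : Fin k → Pos → Fin k)
    (x : Tup k B → Bool) (a b : Fin N) :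
    (GX E e x).Adj a b ↔ (GG F e x).Adj (E.symm a) (E.symm b) := Iff.rfl

theorem domNumber_le {V : Type} [Fintype V] (G : SimpleGraph V) (D : Finset V)
    (h : IsDominatingSet G D) : dominatingNumber G ≤ D.card := by
  unfold dominatingNumber
  exact Nat.sInf_le ⟨D, rfl, h⟩

theorem exists_dom {V : Type} [Fintype V] (G : SimpleGraph V) :
    ∃ D : Finset V, D.card = dominatingNumber G ∧ IsDominatingSet G D := by
  unfold dominatingNumber
  have hne : {m | ∃ D : Finset V, D.card = m ∧ IsDominatingSet G D}.Nonempty :=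
    ⟨_, Finset.univ, rfl, fun v => Or.inl (Finset.mem_univ v)⟩
  exact Nat.sInf_mem hne

theorem dom_GX {k B F N : ℕ} (E : VG k B F ≃ Fin N) (e : Fin k → Pos → Fin k)
    (x : Tup k B → Bool) (D : Finset (Fin N)) (h : IsDominatingSet (GX E e x) D) :
    IsDominatingSet (GG F e x) (D.map E.symm.toEmbedding) := by
  intro p
  rcases h (E p) with h1 | ⟨u, hu, hadj⟩
  · left
    rw [Finset.mem_map]
    exact ⟨E p, h1, by simp⟩
  · right
    refine ⟨E.symm u, ?_, ?_⟩
    · rw [Finset.mem_map]
      exact ⟨u, hu, rfl⟩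
    · rw [GX_adj] at hadj
      simpa using hadj

theorem dom_GX' {k B F N : ℕ} (E : VG k B F ≃ Fin N) (e : Fin k → Pos → Fin k)
    (x : Tup k B → Bool) (D : Finset (VG k B F)) (h : IsDominatingSet (GG F e x) D) :
    IsDominatingSet (GX E e x) (D.map E.toEmbedding) := by
  intro p
  rcases h (E.symm p) with h1 | ⟨u, hu, hadj⟩
  · left
    rw [Finset.mem_map]
    exact ⟨E.symm p, h1, by simp⟩
  · right
    refine ⟨E u, ?_, ?_⟩
    · rw [Finset.mem_map]
      exact ⟨u, hu, rfl⟩
    · rw [GX_adj]
      simpa using hadj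

theorem gamma_le {k B F N : ℕ} (hk : 1 ≤ k) (E : VG k B F ≃ Fin N) (e : Fin k → Pos → Fin k)
    (x : Tup k B → Bool) (v : Fin k → Dom B) (hv : Sol e x v) :
    dominatingNumber (GX E e x) ≤ k := by
  obtain ⟨D, hD, hdom⟩ := dom_le_of_sol (F := F) hk e x v hv
  refine le_trans (domNumber_le _ _ (dom_GX' E e x D hdom)) ?_
  rw [Finset.card_map]
  exact hD

theorem lt_gamma {k B F N : ℕ} (hB : 0 < B) (E : VG k B F ≃ Fin N) (e : Fin k → Pos → Fin k)
    (x : Tup k B → Bool) (hx : ¬ ∃ v, Sol e x v) :
    F < dominatingNumber (GX E e x) := by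
  by_contra hcon
  push Not at hcon
  obtain ⟨D, hD, hdom⟩ := exists_dom (GX E e x)
  apply hx
  refine sol_of_dom hB e x (D.map E.symm.toEmbedding) ?_ (dom_GX E e x D hdom)
  rw [Finset.card_map]
  omega

/-- every adjacency bit of the constructed graph is a constant or an input bit -/
theorem bits_form {k B F N : ℕ} (E : VG k B F ≃ Fin N) (e : Fin k → Pos → Fin k)
    (p : Pairs N) : (∃ c, ∀ x, adjBits (GX E e x) p = c) ∨
      ∃ t, ∀ x, adjBits (GX E e x) p = x t := by
  classical
  obtain ⟨p, hp⟩ := p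
  induction p using Sym2.ind with
  | _ a b =>
    have h0 : ∀ x, adjBits (GX E e x) ⟨s(a, b), hp⟩ = true ↔
        (GG F e x).Adj (E.symm a) (E.symm b) := by
      intro x
      unfold adjBits
      rw [decide_eq_true_eq, SimpleGraph.mem_edgeSet, GX_adj]
    have hlit : ∀ (t : Tup k B) (r : RR k B F), (∀ x, adjBits (GX E e x) ⟨s(a, b), hp⟩ = true ↔
        (x t = true ∧ Rel e t r)) → (∃ c, ∀ x, adjBits (GX E e x) ⟨s(a, b), hp⟩ = c) ∨
        ∃ t, ∀ x, adjBits (GX E e x) ⟨s(a, b), hp⟩ = x t := by
      intro t r h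
      by_cases hr : Rel e t r
      · right
        refine ⟨t, fun x => ?_⟩
        rw [Bool.eq_iff_iff, h x]
        exact ⟨fun h => h.1, fun h => ⟨h, hr⟩⟩
      · left
        refine ⟨false, fun x => ?_⟩
        rw [Bool.eq_false_iff, ne_eq, h x]
        exact fun h => hr h.2
    rcases ha : E.symm a with t | r <;> rcases hb : E.symm b with t' | r'
    · left
      by_cases htt : t = t'
      · refine ⟨false, fun x => ?_⟩
        rw [Bool.eq_false_iff, ne_eq, h0 x, ha, hb]
        exact fun h => h htt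
      · refine ⟨true, fun x => ?_⟩
        rw [h0 x, ha, hb]
        exact htt
    · refine hlit t r' fun x => ?_
      rw [h0 x, ha, hb]
      exact Iff.rfl
    · refine hlit t' r fun x => ?_
      rw [h0 x, ha, hb]
      exact Iff.rfl
    · left
      refine ⟨false, fun x => ?_⟩
      rw [Bool.eq_false_iff, ne_eq, h0 x, ha, hb]
      exact fun h => h

end Pool.Agent.Lib.MP_01def2_lc
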