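import Pool.Agent.Lib.MP_01def2_lc.Prob

/-!
Random restrictions and the Furst-Saxe-Sipser lemma: conjunctions of `c`-juntas become
juntas of constant size under a random restriction with star probability `2^{-w}`.
-/

namespace Pool.Agent.Lib.MP_01def2_lc

open Finset

/-- apply a restriction (`none` is a star) -/
def rs {X : Type} (ρ : X → Option Bool) (y : X → Bool) : X → Bool := fun x => (ρ x).getD (y x)

/-- composition of restrictions: first `ρ`, then `σ` on the stars of `ρ` -/
def compR {X : Type} (ρ σ : X → Option Bool) : X → Option Bool := fun x => (ρ x).or (σ x)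

theorem rs_compR {X : Type} (ρ σ : X → Option Bool) (y : X → Bool) :
    rs (compR ρ σ) y = rs ρ (rs σ y) := by
  funext x
  unfold rs compR
  cases h : ρ x <;> simp

/-- `g` depends on at most `b` variables -/
def Junta {X : Type} (b : ℕ) (g : (X → Bool) → Bool) : Prop :=
  ∃ S : Finset X, S.card ≤ b ∧ DependsOn g (↑S : Set X)

theorem Junta.mono {X : Type} {b b' : ℕ} {g : (X → Bool) → Bool} (h : Junta b g) (hb : b ≤ b') :
    Junta b' g := by
  obtain ⟨S, h1, h2⟩ := h
  exact ⟨S, h1.trans hb, h2⟩

theorem Junta.not {X : Type} {b : ℕ} {g : (X → Bool) → Bool} (h : Junta b g) :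
    Junta b (fun y => ! g y) := by
  obtain ⟨S, h1, h2⟩ := h
  refine ⟨S, h1, ?_⟩
  intro x y hxy
  simp only [h2 hxy]

theorem junta_const {X : Type} (b : ℕ) (v : Bool) : Junta b (fun _ : X → Bool => v) :=
  ⟨∅, by simp, fun _ _ _ => rfl⟩

theorem Junta.rs {X : Type} {b : ℕ} {g : (X → Bool) → Bool} (h : Junta b g)
    (ρ : X → Option Bool) : Junta b (fun y => g (rs ρ y)) := by
  obtain ⟨S, h1, h2⟩ := h
  refine ⟨S, h1, ?_⟩
  intro x y hxy
  apply h2
  intro i hi
  unfold MP_01def2_lc.rs
  rw [hxy i hi]

/-- the weights of a random restriction with star probability `q` -/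
noncomputable def wt (X : Type) (q : ℝ) : X → Option Bool → ℝ :=
  fun _ o => if o = none then q else (1 - q) / 2

theorem wt_nonneg {X : Type} {q : ℝ} (h0 : 0 ≤ q) (h1 : q ≤ 1) (x : X) (o : Option Bool) :
    0 ≤ wt X q x o := by
  unfold wt
  split_ifs <;> linarith

theorem wt_sum {X : Type} (q : ℝ) (x : X) : ∑ o, wt X q x o = 1 := by
  unfold wt
  simp [Fintype.sum_option]
  ring

theorem hitting {I X : Type} [DecidableEq I] [DecidableEq X] (c L : ℕ) (s : Finset I)
    (V : I → Finset X)
    (hV : ∀ i ∈ s, (V i).card ≤ c) (hne : ∀ i ∈ s, (V i).Nonempty) :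
    (∃ M ⊆ s, M.card = L ∧ (∀ i ∈ M, ∀ j ∈ M, i ≠ j → Disjoint (V i) (V j))) ∨
    (∃ Y : Finset X, Y.card ≤ c * L ∧ ∀ i ∈ s, ¬ Disjoint (V i) Y) := by
  induction L with
  | zero => exact Or.inl ⟨∅, by simp, by simp, by simp⟩
  | succ L ih =>
    rcases ih with ⟨M, hMs, hMc, hM⟩ | ⟨Y, hY, hYs⟩
    · by_cases hall : ∀ i ∈ s, ¬ Disjoint (V i) (M.biUnion V)
      · right
        refine ⟨M.biUnion V, ?_, hall⟩
        calc (M.biUnion V).card ≤ ∑ i ∈ M, (V i).card := Finset.card_biUnion_le
          _ ≤ ∑ i ∈ M, c := Finset.sum_le_sum fun i hi => hV i (hMs hi)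
          _ = c * L := by simp [hMc, mul_comm]
          _ ≤ c * (L + 1) := Nat.mul_le_mul_left _ (Nat.le_succ _)
      · push Not at hall
        obtain ⟨i, his, hdis⟩ := hall
        have hiM : i ∉ M := by
          intro hi
          obtain ⟨x, hx⟩ := hne i his
          exact (Finset.disjoint_left.mp hdis hx) (Finset.mem_biUnion.mpr ⟨i, hi, hx⟩)
        have hd : ∀ j ∈ M, Disjoint (V i) (V j) := by
          intro j hj
          exact hdis.mono_right (Finset.subset_biUnion_of_mem V hj)
        left
        refine ⟨insert i M, Finset.insert_subset his hMs, by simp [hiM, hMc], ?_⟩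
        intro a ha b hb hab
        rw [Finset.mem_insert] at ha hb
        rcases ha with rfl | ha <;> rcases hb with rfl | hb
        · exact absurd rfl hab
        · exact hd b hb
        · exact (hd a ha).symm
        · exact hM a ha b hb hab
    · right
      exact ⟨Y, hY.trans (Nat.mul_le_mul_left _ (Nat.le_succ _)), hYs⟩

theorem prob_disjoint {I X : Type} [Fintype X] [DecidableEq I]
    {q : ℝ} (M : Finset I) (V : I → Finset X)
    (hM : ∀ i ∈ M, ∀ j ∈ M, i ≠ j → Disjoint (V i) (V j)) (τ : I → X → Bool) :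
    Pb (wt X q) (fun ρ => ∀ i ∈ M, ¬ (∀ x ∈ V i, ρ x = some (τ i x))) =
      ∏ i ∈ M, (1 - ((1 - q) / 2) ^ (V i).card) := by
  classical
  induction M using Finset.induction_on with
  | empty =>
    rw [Finset.prod_empty]
    refine Eq.trans ?_ (PE_one (wt_sum (X := X) q))
    unfold Pb
    congr 1
    funext ρ
    rw [if_pos]
    simp
  | insert a M ha ih =>
    rw [Finset.prod_insert ha]
    have hM' : ∀ i ∈ M, ∀ j ∈ M, i ≠ j → Disjoint (V i) (V j) := fun i hi j hj =>
      hM i (Finset.mem_insert_of_mem hi) j (Finset.mem_insert_of_mem hj)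
    rw [← ih hM']
    have h1 : Pb (wt X q) (fun ρ => ¬ (∀ x ∈ V a, ρ x = some (τ a x))) =
        1 - ((1 - q) / 2) ^ (V a).card := by
      rw [Pb_not (wt_sum q), Pb_cyl (wt_sum q) (V a) (fun x o => o = some (τ a x))]
      congr 1
      rw [← Finset.prod_const]
      refine Finset.prod_congr rfl fun x _ => ?_
      simp [wt]
    rw [← h1, ← Pb_indep (wt_sum q) (V a)]
    · congr 1
      funext ρ
      simp only [Finset.forall_mem_insert]
    · intro x y hxy
      have : (∀ z ∈ V a, x z = some (τ a z)) ↔ (∀ z ∈ V a, y z = some (τ a z)) := by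
        refine forall₂_congr fun z hz => ?_
        rw [hxy z (by simpa using hz)]
      simp only [this]
    · intro x y hxy
      have : (∀ i ∈ M, ¬ ∀ z ∈ V i, x z = some (τ i z)) ↔
          (∀ i ∈ M, ¬ ∀ z ∈ V i, y z = some (τ i z)) := by
        refine forall₂_congr fun i hi => ?_
        apply not_congr
        refine forall₂_congr fun z hz => ?_
        have hdis : Disjoint (V i) (V a) := by
          refine hM i (Finset.mem_insert_of_mem hi) a (Finset.mem_insert_self _ _) ?_
          rintro rfl
          exact ha hi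
        have hz' : z ∉ V a := Finset.disjoint_left.mp hdis hz
        rw [hxy z (by simpa using hz')]
      simp only [this]

theorem Pb_eq_zero {ι A : Type} [Fintype ι] [Fintype A] (μ : ι → A → ℝ) (P : (ι → A) → Prop)
    (h : ∀ ρ, ¬ P ρ) : Pb μ P = 0 := by
  classical
  unfold Pb PE
  refine Finset.sum_eq_zero fun ρ _ => ?_
  simp only [if_neg (h ρ), mul_zero]

open scoped Classical in
theorem merge_junta {X : Type} (Y : Finset X) (ρ1 ρ2 : X → Option Bool)
    (g : (X → Bool) → Bool) (m0 b' : ℕ)
    (hstar : (Y.filter (fun x => ρ1 x = none)).card ≤ m0)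
    (h : ∀ A ⊆ Y.filter (fun x => ρ1 x = none),
      Junta b' (fun y => g (Y.piecewise (rs ρ1 (fun x => decide (x ∈ A))) (rs ρ2 y)))) :
    Junta (m0 + 2 ^ m0 * b') (fun y => g (rs (Y.piecewise ρ1 ρ2) y)) := by
  set Ys := Y.filter (fun x => ρ1 x = none) with hYs
  have h' : ∀ A : Finset X, ∃ S : Finset X, A ⊆ Ys → (S.card ≤ b' ∧ DependsOn
      (fun y => g (Y.piecewise (rs ρ1 (fun x => decide (x ∈ A))) (rs ρ2 y))) (↑S : Set X)) := by
    intro A
    by_cases hA : A ⊆ Ys
    · obtain ⟨S, hS⟩ := h A hA
      exact ⟨S, fun _ => hS⟩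
    · exact ⟨∅, fun h => absurd h hA⟩
  choose S hS using h'
  refine ⟨Ys ∪ Ys.powerset.biUnion S, ?_, ?_⟩
  · refine (Finset.card_union_le _ _).trans ?_
    refine Nat.add_le_add hstar ?_
    refine Finset.card_biUnion_le.trans ?_
    calc ∑ A ∈ Ys.powerset, (S A).card ≤ ∑ A ∈ Ys.powerset, b' :=
          Finset.sum_le_sum fun A hA => (hS A (Finset.mem_powerset.mp hA)).1
      _ = 2 ^ Ys.card * b' := by simp [Finset.card_powerset]
      _ ≤ 2 ^ m0 * b' := Nat.mul_le_mul_right _ (Nat.pow_le_pow_right (by norm_num) hstar)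
  · have key : ∀ y : X → Bool, rs (Y.piecewise ρ1 ρ2) y =
        Y.piecewise (rs ρ1 (fun x => decide (x ∈ Ys.filter (fun x => y x = true)))) (rs ρ2 y) := by
      intro y
      funext x
      by_cases hx : x ∈ Y
      · simp only [rs, Finset.piecewise, hx, if_true]
        cases hr : ρ1 x with
        | none =>
          have : x ∈ Ys := by rw [hYs, Finset.mem_filter]; exact ⟨hx, hr⟩
          simp [this]
        | some b => simp
      · simp only [rs, Finset.piecewise, hx, if_false]
    intro x y hxy
    have hA : Ys.filter (fun z => x z = true) = Ys.filter (fun z => y z = true) := by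
      refine Finset.filter_congr fun z hz => ?_
      rw [hxy z (by simp [hz])]
    simp only
    rw [key x, key y, hA]
    have hsub : Ys.filter (fun z => y z = true) ⊆ Ys := Finset.filter_subset _ _
    refine (hS _ hsub).2 ?_
    intro z hz
    apply hxy z
    simp only [Finset.coe_union, Finset.coe_biUnion, Set.mem_union, Set.mem_iUnion]
    right
    exact ⟨_, Finset.mem_coe.mpr (Finset.mem_powerset.mpr hsub), hz⟩

theorem eventually_sq_le (D : ℕ) : ∃ w0 : ℕ, ∀ w ≥ w0, ((D * w : ℕ) : ℝ) ^ 2 ≤ 2 ^ w := by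
  have h := tendsto_pow_const_div_const_pow_of_one_lt 2 (r := (2 : ℝ)) (by norm_num)
  have h2 : ∀ᶠ n : ℕ in Filter.atTop, (n : ℝ) ^ 2 / 2 ^ n < 1 / ((D : ℝ) ^ 2 + 1) := by
    apply h.eventually (gt_mem_nhds (by positivity))
  rw [Filter.eventually_atTop] at h2
  obtain ⟨w0, hw0⟩ := h2
  refine ⟨w0, fun w hw => ?_⟩
  have h3 := hw0 w hw
  rw [div_lt_div_iff₀ (by positivity) (by positivity)] at h3
  push_cast
  nlinarith [sq_nonneg (w : ℝ), sq_nonneg (D : ℝ)]

theorem choose_mul_le (Y m : ℕ) (q : ℝ) (hq : 0 ≤ q) :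
    (Y.choose m : ℝ) * q ^ m ≤ (Y * q) ^ m := by
  rw [mul_pow]
  refine mul_le_mul_of_nonneg_right ?_ (pow_nonneg hq _)
  exact_mod_cast Nat.choose_le_pow Y m

theorem case1_bound (c K w : ℕ) (q : ℝ) (hq0 : 0 ≤ q) (hq : q ≤ 1 / 2) {I X : Type}
    (M : Finset I) (V : I → Finset X) (hV : ∀ i ∈ M, (V i).card ≤ c)
    (hM : M.card = K * w * 4 ^ c) :
    ∏ i ∈ M, (1 - ((1 - q) / 2) ^ (V i).card) ≤ (1 / 2 : ℝ) ^ (K * w) := by
  have h1 : ∏ i ∈ M, (1 - ((1 - q) / 2) ^ (V i).card) ≤ ∏ i ∈ M, (1 - (1 / 4 : ℝ) ^ c) := by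
    refine Finset.prod_le_prod (fun i _ => ?_) (fun i hi => ?_)
    · have : ((1 - q) / 2) ^ (V i).card ≤ 1 := pow_le_one₀ (by linarith) (by linarith)
      linarith
    · have h2 : (1 / 4 : ℝ) ^ c ≤ (1 / 4 : ℝ) ^ (V i).card :=
        pow_le_pow_of_le_one (by norm_num) (by norm_num) (hV i hi)
      have h3 : (1 / 4 : ℝ) ^ (V i).card ≤ ((1 - q) / 2) ^ (V i).card :=
        pow_le_pow_left₀ (by norm_num) (by linarith) _
      linarith
  refine h1.trans ?_
  rw [Finset.prod_const, hM]
  have h4 : (1 - (1 / 4 : ℝ) ^ c) ≤ Real.exp (-(1 / 4 : ℝ) ^ c) := by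
    have := Real.add_one_le_exp (-(1 / 4 : ℝ) ^ c)
    linarith
  have h5 : (0 : ℝ) ≤ 1 - (1 / 4 : ℝ) ^ c := by
    have : (1 / 4 : ℝ) ^ c ≤ 1 := pow_le_one₀ (by norm_num) (by norm_num)
    linarith
  calc (1 - (1 / 4 : ℝ) ^ c) ^ (K * w * 4 ^ c) ≤ (Real.exp (-(1 / 4 : ℝ) ^ c)) ^ (K * w * 4 ^ c) :=
        pow_le_pow_left₀ h5 h4 _
    _ = Real.exp (-(K * w : ℕ)) := by
        rw [← Real.exp_nat_mul]
        congr 1
        push_cast
        rw [one_div, inv_pow]
        field_simp
    _ = (Real.exp (-1)) ^ (K * w) := by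
        rw [← Real.exp_nat_mul]
        congr 1
        ring
    _ ≤ (1 / 2 : ℝ) ^ (K * w) := by
        refine pow_le_pow_left₀ (Real.exp_pos _).le ?_ _
        rw [Real.exp_neg, one_div]
        refine inv_anti₀ (by norm_num) ?_
        have := Real.add_one_le_exp 1
        linarith

open scoped Classical in
/-- **Furst–Saxe–Sipser lemma** -/
theorem fss (c : ℕ) : ∀ K : ℕ, ∃ b w0 : ℕ, ∀ w ≥ w0, ∀ (X : Type) [Fintype X] (I : Type)
    (s : Finset I) (g : I → (X → Bool) → Bool), (∀ i ∈ s, Junta c (g i)) →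
    Pb (wt X ((1 / 2 : ℝ) ^ w))
      (fun ρ => ¬ Junta b (fun y => decide (∀ i ∈ s, g i (rs ρ y) = true))) ≤
        (1 / 2 : ℝ) ^ (K * w) := by
  induction c with
  | zero =>
    intro K
    refine ⟨0, 0, fun w _ X _ I s g hg => ?_⟩
    rw [Pb_eq_zero]
    · positivity
    · intro ρ
      rw [not_not]
      refine ⟨∅, by simp, ?_⟩
      intro x y _
      simp only
      congr 1
      refine propext (forall₂_congr fun i hi => ?_)
      obtain ⟨S, hS1, hS2⟩ := hg i hi
      have : S = ∅ := Finset.card_eq_zero.mp (Nat.le_zero.mp hS1)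
      rw [hS2 (x := rs ρ x) (y := rs ρ y)]
      intro z hz
      rw [this] at hz
      simp at hz
  | succ c ih =>
    intro K
    obtain ⟨b', w1, hih⟩ := ih (K + 1)
    set m1 : ℕ := 2 * (K + 1) with hm1
    set m0 : ℕ := m1 - 1 with hm0
    obtain ⟨w2, hw2⟩ := eventually_sq_le ((c + 1) * (K * 4 ^ (c + 1)))
    refine ⟨m0 + 2 ^ m0 * b', max (max w1 w2) (m0 + 1), fun w hw X _ I s g hg => ?_⟩
    have hww1 : w ≥ w1 := le_trans (le_max_left _ _) (le_trans (le_max_left _ _) hw)
    have hww2 : w ≥ w2 := le_trans (le_max_right _ _) (le_trans (le_max_left _ _) hw)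
    have hww3 : w ≥ m0 + 1 := le_trans (le_max_right _ _) hw
    set q : ℝ := (1 / 2 : ℝ) ^ w with hq
    have hq0 : 0 ≤ q := by positivity
    have hq1 : q ≤ 1 / 2 := by
      rw [hq]
      calc (1 / 2 : ℝ) ^ w ≤ (1 / 2 : ℝ) ^ 1 :=
            pow_le_pow_of_le_one (by norm_num) (by norm_num) (by omega)
        _ = 1 / 2 := by norm_num
    have hwt : ∀ (x : X) (o : Option Bool), 0 ≤ wt X q x o := wt_nonneg hq0 (by linarith)
    -- case 0
    by_cases h0 : ∃ i ∈ s, ∀ y, g i y = false
    · obtain ⟨i, hi, hf⟩ := h0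
      rw [Pb_eq_zero]
      · positivity
      · intro ρ
        rw [not_not]
        have : (fun y => decide (∀ i ∈ s, g i (rs ρ y) = true)) = fun _ => false := by
          funext y
          rw [decide_eq_false_iff_not]
          intro hall
          have := hall i hi
          rw [hf] at this
          exact absurd this (by simp)
        rw [this]
        exact junta_const _ _
    push Not at h0
    have hg' : ∀ i, ∃ S : Finset X, i ∈ s → (S.card ≤ c + 1 ∧ DependsOn (g i) (↑S : Set X)) := by
      intro i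
      by_cases hi : i ∈ s
      · obtain ⟨S, hS⟩ := hg i hi
        exact ⟨S, fun _ => hS⟩
      · exact ⟨∅, fun h => absurd h hi⟩
    choose V hV using hg'
    set s' := s.filter (fun i => ∃ y, g i y = false) with hs'
    have hs's : s' ⊆ s := Finset.filter_subset _ _
    have hne : ∀ i ∈ s', (V i).Nonempty := by
      intro i hi
      rw [hs', Finset.mem_filter] at hi
      obtain ⟨hi, y, hy⟩ := hi
      obtain ⟨y', hy'⟩ := h0 i hi
      rw [Finset.nonempty_iff_ne_empty]
      intro hemp
      apply hy'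
      rw [← hy]
      apply (hV i hi).2
      intro z hz
      rw [hemp] at hz
      simp at hz
    have hactive : ∀ i, ∃ τ : X → Bool, i ∈ s' → g i τ = false := by
      intro i
      by_cases hi : i ∈ s'
      · have := hi
        rw [hs', Finset.mem_filter] at this
        obtain ⟨_, y, hy⟩ := this
        exact ⟨y, fun _ => hy⟩
      · exact ⟨fun _ => false, fun h => absurd h hi⟩
    choose τ hτ using hactive
    rcases hitting (c + 1) (K * w * 4 ^ (c + 1)) s' V (fun i hi => (hV i (hs's hi)).1) hne with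
      ⟨M, hMs, hMc, hM⟩ | ⟨Y, hYc, hY⟩
    · -- case 1
      refine le_trans (Pb_mono hwt
        (Q := fun ρ => ∀ i ∈ M, ¬ (∀ x ∈ V i, ρ x = some (τ i x))) ?_) ?_
      · intro ρ hρ i hi hall
        apply hρ
        have : (fun y => decide (∀ i ∈ s, g i (rs ρ y) = true)) = fun _ => false := by
          funext y
          rw [decide_eq_false_iff_not]
          intro hall2
          have h1 := hall2 i (hs's (hMs hi))
          have h2 : g i (rs ρ y) = g i (τ i) := by
            apply (hV i (hs's (hMs hi))).2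
            intro z hz
            have : z ∈ V i := by simpa using hz
            simp [rs, hall z this]
          rw [h2, hτ i (hMs hi)] at h1
          exact absurd h1 (by simp)
        rw [this]
        exact junta_const _ _
      · rw [prob_disjoint M V hM τ]
        exact case1_bound (c + 1) K w q hq0 hq1 M V (fun i hi => (hV i (hs's (hMs hi))).1) hMc
    · -- case 2
      have hstep : Pb (wt X q)
          (fun ρ => ¬ Junta (m0 + 2 ^ m0 * b')
            (fun y => decide (∀ i ∈ s, g i (rs ρ y) = true))) ≤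
          PE (wt X q) (fun ρ1 =>
            (@ite ℝ (∃ T ∈ Y.powersetCard m1, ∀ x ∈ T, ρ1 x = none)
              (Classical.propDecidable _) 1 0) +
              2 ^ m0 * (1 / 2 : ℝ) ^ ((K + 1) * w)) := by
        unfold Pb
        rw [← PE_merge (wt_sum q) Y]
        refine PE_mono hwt fun ρ1 => ?_
        by_cases hE : ∃ T ∈ Y.powersetCard m1, ∀ x ∈ T, ρ1 x = none
        · rw [if_pos hE]
          have h1 := Pb_le_one hwt (wt_sum q) (fun σ => ¬ Junta (m0 + 2 ^ m0 * b')
            (fun y => decide (∀ i ∈ s, g i (rs (Y.piecewise ρ1 σ) y) = true)))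
          unfold Pb at h1
          refine le_trans h1 ?_
          have : (0 : ℝ) ≤ 2 ^ m0 * (1 / 2 : ℝ) ^ ((K + 1) * w) := by positivity
          linarith
        · rw [if_neg hE, zero_add]
          set Ys := Y.filter (fun x => ρ1 x = none) with hYs
          have hcard : Ys.card ≤ m0 := by
            by_contra hcon
            push Not at hcon
            have : m1 ≤ Ys.card := by omega
            obtain ⟨T, hTs, hTc⟩ := Finset.exists_subset_card_eq this
            apply hE
            refine ⟨T, ?_, ?_⟩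
            · rw [Finset.mem_powersetCard]
              exact ⟨hTs.trans (Finset.filter_subset _ _), hTc⟩
            · intro x hx
              have := hTs hx
              rw [hYs, Finset.mem_filter] at this
              exact this.2
          have h2 : Pb (wt X q) (fun σ => ¬ Junta (m0 + 2 ^ m0 * b')
              (fun y => decide (∀ i ∈ s, g i (rs (Y.piecewise ρ1 σ) y) = true))) ≤
              Pb (wt X q) (fun σ => ∃ A ∈ Ys.powerset, ¬ Junta b' (fun y => decide (∀ i ∈ s,
                (fun y => g i (Y.piecewise (rs ρ1 (fun x => decide (x ∈ A))) y)) (rs σ y)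
                  = true))) := by
            refine Pb_mono hwt fun σ hσ => ?_
            by_contra hcon
            push Not at hcon
            apply hσ
            refine merge_junta Y ρ1 σ (fun y => decide (∀ i ∈ s, g i y = true)) m0 b' hcard ?_
            intro A hA
            exact hcon A (Finset.mem_powerset.mpr hA)
          refine le_trans h2 ?_
          refine le_trans (Pb_exists_le hwt _ _) ?_
          have h3 : ∀ A ∈ Ys.powerset, Pb (wt X q) (fun σ => ¬ Junta b' (fun y => decide (∀ i ∈ s,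
                (fun y => g i (Y.piecewise (rs ρ1 (fun x => decide (x ∈ A))) y)) (rs σ y)
                  = true))) ≤ (1 / 2 : ℝ) ^ ((K + 1) * w) := by
            intro A _
            refine hih w hww1 X I s
              (fun i y => g i (Y.piecewise (rs ρ1 (fun x => decide (x ∈ A))) y)) ?_
            intro i hi
            by_cases hi' : i ∈ s'
            · refine ⟨V i \ Y, ?_, ?_⟩
              · have h4 := hY i hi'
                rw [Finset.not_disjoint_iff] at h4
                obtain ⟨z, hz1, hz2⟩ := h4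
                have h5 : (V i \ Y).card < (V i).card := by
                  refine Finset.card_lt_card ?_
                  rw [Finset.ssubset_iff_of_subset Finset.sdiff_subset]
                  exact ⟨z, hz1, by simp [hz2]⟩
                have := (hV i hi).1
                omega
              · intro x y hxy
                apply (hV i hi).2
                intro z hz
                by_cases hzY : z ∈ Y
                · simp [Finset.piecewise, hzY]
                · simp only [Finset.piecewise, hzY, if_false]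
                  apply hxy
                  simp only [Finset.coe_sdiff, Set.mem_sdiff, Finset.mem_coe]
                  exact ⟨by simpa using hz, hzY⟩
            · have : (fun y => g i (Y.piecewise (rs ρ1 (fun x => decide (x ∈ A))) y)) =
                  fun _ => true := by
                funext y
                by_contra hcon
                apply hi'
                rw [hs', Finset.mem_filter]
                exact ⟨hi, _, by simpa using hcon⟩
              rw [this]
              exact junta_const _ _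
          refine le_trans (Finset.sum_le_sum h3) ?_
          rw [Finset.sum_const, Finset.card_powerset, nsmul_eq_mul]
          refine mul_le_mul_of_nonneg_right ?_ (by positivity)
          push_cast
          exact pow_le_pow_right₀ (by norm_num) hcard
      refine le_trans hstep ?_
      rw [PE_add, PE_const (wt_sum q)]
      change Pb (wt X q) (fun ρ1 => ∃ T ∈ Y.powersetCard m1, ∀ x ∈ T, ρ1 x = none) + _ ≤ _
      have h6 : Pb (wt X q) (fun ρ1 => ∃ T ∈ Y.powersetCard m1, ∀ x ∈ T, ρ1 x = none) ≤
          (1 / 2 : ℝ) ^ ((K + 1) * w) := by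
        have h7 := Pb_exists_le hwt (Y.powersetCard m1) (fun T ρ1 => ∀ x ∈ T, ρ1 x = none)
        refine le_trans h7 ?_
        have h8 : ∀ T ∈ Y.powersetCard m1, Pb (wt X q)
            (fun ρ1 => ∀ x ∈ T, ρ1 x = none) = q ^ m1 := by
          intro T hT
          have h9 := Pb_cyl (wt_sum (X := X) q) T (fun _ o => o = none)
          refine Eq.trans h9 ?_
          rw [Finset.mem_powersetCard] at hT
          rw [← hT.2, ← Finset.prod_const]
          refine Finset.prod_congr rfl fun x _ => ?_
          simp [wt]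
        rw [Finset.sum_congr rfl h8, Finset.sum_const, Finset.card_powersetCard, nsmul_eq_mul]
        refine le_trans (choose_mul_le _ _ q hq0) ?_
        have h10 : ((Y.card : ℝ) * q) ^ 2 ≤ q := by
          have h11 : (Y.card : ℝ) ≤ (((c + 1) * (K * 4 ^ (c + 1))) * w : ℕ) := by
            have : (c + 1) * (K * w * 4 ^ (c + 1)) = ((c + 1) * (K * 4 ^ (c + 1))) * w := by ring
            rw [← this]
            exact_mod_cast hYc
          have h12 : (Y.card : ℝ) ^ 2 ≤ 2 ^ w :=
            le_trans (pow_le_pow_left₀ (by positivity) h11 2) (hw2 w hww2)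
          rw [mul_pow]
          have h13 : (2 : ℝ) ^ w * q = 1 := by
            rw [hq, ← mul_pow]; norm_num
          calc (Y.card : ℝ) ^ 2 * q ^ 2 ≤ 2 ^ w * q ^ 2 :=
                mul_le_mul_of_nonneg_right h12 (by positivity)
            _ = (2 ^ w * q) * q := by ring
            _ = q := by rw [h13, one_mul]
        calc ((Y.card : ℝ) * q) ^ m1 = (((Y.card : ℝ) * q) ^ 2) ^ (K + 1) := by
              rw [hm1, pow_mul]
          _ ≤ q ^ (K + 1) := pow_le_pow_left₀ (by positivity) h10 _
          _ = (1 / 2 : ℝ) ^ ((K + 1) * w) := by rw [hq, ← pow_mul, mul_comm]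
      have h14 : (1 / 2 : ℝ) ^ ((K + 1) * w) = (1 / 2 : ℝ) ^ (K * w) * (1 / 2 : ℝ) ^ w := by
        rw [← pow_add]; congr 1; ring
      have h15 : (1 + 2 ^ m0 : ℝ) * (1 / 2 : ℝ) ^ w ≤ 1 := by
        have h16 : (1 / 2 : ℝ) ^ w ≤ (1 / 2 : ℝ) ^ (m0 + 1) :=
          pow_le_pow_of_le_one (by norm_num) (by norm_num) hww3
        have h17 : (2 : ℝ) ^ m0 * (1 / 2 : ℝ) ^ m0 = 1 := by
          rw [← mul_pow]; norm_num
        have h18 : (1 / 2 : ℝ) ^ m0 ≤ 1 := pow_le_one₀ (by norm_num) (by norm_num)
        calc (1 + 2 ^ m0 : ℝ) * (1 / 2 : ℝ) ^ w ≤ (1 + 2 ^ m0 : ℝ) * (1 / 2 : ℝ) ^ (m0 + 1) :=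
              mul_le_mul_of_nonneg_left h16 (by positivity)
          _ = ((1 / 2 : ℝ) ^ m0 + 2 ^ m0 * (1 / 2 : ℝ) ^ m0) * (1 / 2) := by ring
          _ ≤ 1 := by rw [h17]; linarith
      calc _ ≤ (1 / 2 : ℝ) ^ ((K + 1) * w) + 2 ^ m0 * (1 / 2 : ℝ) ^ ((K + 1) * w) := by
            linarith
        _ = (1 / 2 : ℝ) ^ (K * w) * ((1 + 2 ^ m0 : ℝ) * (1 / 2 : ℝ) ^ w) := by
            rw [h14]; ring
        _ ≤ (1 / 2 : ℝ) ^ (K * w) * 1 :=
            mul_le_mul_of_nonneg_left h15 (by positivity)
        _ = _ := mul_one _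

end Pool.Agent.Lib.MP_01def2_lc
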