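import Pool.Agent.Lib.MP_01def2_lc.Gap

/-!
Assembly: no constant-depth family of size `n^{o(k)}` approximates the dominating number.
-/

namespace Pool.Agent.Lib.MP_01def2_lc

open Finset

theorem eventually_poly_le (C m : ℕ) : ∃ B0 : ℕ, ∀ B ≥ B0, C * B ^ m ≤ 2 ^ B := by
  have h := tendsto_pow_const_div_const_pow_of_one_lt m (r := (2 : ℝ)) (by norm_num)
  have h2 : ∀ᶠ n : ℕ in Filter.atTop, (n : ℝ) ^ m / 2 ^ n < 1 / ((C : ℝ) + 1) := by
    apply h.eventually (gt_mem_nhds (by positivity))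
  rw [Filter.eventually_atTop] at h2
  obtain ⟨B0, hB0⟩ := h2
  refine ⟨B0, fun B hB => ?_⟩
  have h3 := hB0 B hB
  rw [div_lt_div_iff₀ (by positivity) (by positivity)] at h3
  have h4 : ((C * B ^ m : ℕ) : ℝ) ≤ ((2 ^ B : ℕ) : ℝ) := by
    push_cast
    have h5 : (0 : ℝ) ≤ (B : ℝ) ^ m := by positivity
    nlinarith
  exact_mod_cast h4

theorem card_VG_le (k F : ℕ) : ∃ B0 : ℕ, ∀ B ≥ B0, Fintype.card (VG k B F) ≤ 2 ^ (18 * B) := by
  set A : ℕ := (2 ^ (F * F)) ^ k with hA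
  set c1 : ℕ := k + k * (17 * (k * (17 * 2))) with hc1
  obtain ⟨B1, hB1⟩ := eventually_poly_le (17 ^ (F * F) * c1 ^ A * (F + 1)) (F * F + A)
  obtain ⟨B2, hB2⟩ := eventually_poly_le (k + 1) 0
  refine ⟨max (max B1 B2) 1, fun B hB => ?_⟩
  have h1 : B ≥ B1 := le_trans (le_trans (le_max_left _ _) (le_max_left _ _)) hB
  have h2 : B ≥ B2 := le_trans (le_trans (le_max_right _ _) (le_max_left _ _)) hB
  have h3 : 1 ≤ B := le_trans (le_max_right _ _) hB
  have hPos : Fintype.card Pos = 17 := by simp [Pos]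
  have e1 : Fintype.card (Tup k B) = k * 2 ^ (17 * B) := by
    rw [Fintype.card_prod, Fintype.card_fun, Fintype.card_fun, Fintype.card_fin, hPos,
      Fintype.card_bool, Fintype.card_fin, ← pow_mul, mul_comm B 17]
  have e2 : Fintype.card (UU k B) ≤ c1 * B := by
    rw [Fintype.card_sum, Fintype.card_prod, Fintype.card_prod, Fintype.card_prod,
      Fintype.card_prod, Fintype.card_prod, Fintype.card_fin, hPos, Fintype.card_bool,
      Fintype.card_fin, hc1]
    nlinarith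
  have e3 : Fintype.card (HI B F) = (17 * B) ^ (F * F) := by
    rw [Fintype.card_fun, Fintype.card_prod, Fintype.card_prod, Fintype.card_fin,
      Fintype.card_fin, hPos]
  have e4 : Fintype.card (Fin k → HV F) = A := by
    rw [Fintype.card_fun, Fintype.card_fun, Fintype.card_prod, Fintype.card_fin,
      Fintype.card_fin, Fintype.card_bool]
  have e5 : Fintype.card (RR k B F) ≤ 2 ^ B := by
    have e6 : Fintype.card ((Fin k → HV F) → UU k B) = Fintype.card (UU k B) ^ A := by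
      rw [Fintype.card_fun, e4]
    rw [Fintype.card_prod, Fintype.card_prod, e3, e6, Fintype.card_fin]
    refine le_trans ?_ (hB1 B h1)
    calc (17 * B) ^ (F * F) * (Fintype.card (UU k B) ^ A * (F + 1)) ≤
          (17 * B) ^ (F * F) * ((c1 * B) ^ A * (F + 1)) :=
          Nat.mul_le_mul_left _ (Nat.mul_le_mul_right _ (Nat.pow_le_pow_left e2 _))
      _ = _ := by rw [mul_pow, mul_pow, pow_add]; ring
  rw [Fintype.card_sum, e1]
  have h4 := hB2 B h2
  rw [pow_zero, mul_one] at h4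
  calc k * 2 ^ (17 * B) + Fintype.card (RR k B F) ≤ k * 2 ^ (17 * B) + 2 ^ B :=
        Nat.add_le_add_left e5 _
    _ ≤ k * 2 ^ (17 * B) + 2 ^ (17 * B) :=
        Nat.add_le_add_left (Nat.pow_le_pow_right (by norm_num) (by omega)) _
    _ = (k + 1) * 2 ^ (17 * B) := by ring
    _ ≤ 2 ^ B * 2 ^ (17 * B) := Nat.mul_le_mul_right _ h4
    _ = 2 ^ (18 * B) := by rw [← pow_add]; congr 1; ring

theorem card_pairs_le (N : ℕ) : Fintype.card (Pairs N) ≤ N * N := by
  classical
  have h1 : Fintype.card (Pairs N) ≤ Fintype.card (Sym2 (Fin N)) :=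
    Fintype.card_subtype_le _
  refine le_trans h1 ?_
  have h2 : Fintype.card (Sym2 (Fin N)) ≤ Fintype.card (Fin N × Fin N) :=
    Fintype.card_le_of_surjective (fun p => s(p.1, p.2)) (by
      intro q
      induction q using Sym2.ind with
      | _ a b => exact ⟨(a, b), rfl⟩)
  simpa using h2

theorem main (f : ℕ → ℕ) (C : (n k : ℕ) → Circuit (Pairs n))
    (hC : IsConstantDepthOfSizeLittleO C) : ¬ ApproximatesDominatingNumber C f := by
  classical
  obtain ⟨d, h, g, hg, hsz⟩ := hC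
  intro happ
  -- choose k
  have hev : ∀ᶠ k : ℕ in Filter.atTop, ‖g k‖ ≤ (1 / 864 : ℝ) * ‖(k : ℝ)‖ :=
    (Asymptotics.isLittleO_iff.mp hg) (by norm_num)
  rw [Filter.eventually_atTop] at hev
  obtain ⟨k1, hk1⟩ := hev
  obtain ⟨k, hkk⟩ : ∃ k, k = max k1 2640 := ⟨_, rfl⟩
  have hk2640 : 2640 ≤ k := by rw [hkk]; exact le_max_right _ _
  have hgk : g k ≤ ((k / 864 + 1 : ℕ) : ℝ) := by
    have h1 := hk1 k (by rw [hkk]; exact le_max_left _ _)
    have h2 : g k ≤ (1 / 864 : ℝ) * (k : ℝ) := by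
      refine le_trans (le_abs_self _) ?_
      simpa using h1
    have h3 : (k : ℝ) ≤ 864 * ((k / 864 + 1 : ℕ) : ℝ) := by
      have : k ≤ 864 * (k / 864 + 1) := by omega
      exact_mod_cast this
    linarith
  obtain ⟨G, hG⟩ : ∃ G, G = k / 864 + 1 := ⟨_, rfl⟩
  rw [← hG] at hgk
  obtain ⟨e, he1, he2⟩ := exists_pattern k (by omega)
  obtain ⟨D, hD⟩ : ∃ D, D = d + 2 := ⟨_, rfl⟩
  obtain ⟨Γ, hΓ⟩ : ∃ Γ, Γ = 36 * k * D * (G + 2) + 1 := ⟨_, rfl⟩
  have hΓ' : 6 * (D * k + 2 * Γ + 1) ≤ k * k * D := by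
    have h1 : 432 * G + 888 ≤ k := by omega
    have h2 : 1 ≤ k * D := Nat.mul_pos (by omega) (by omega)
    calc 6 * (D * k + 2 * Γ + 1) = 6 * (k * D) + 432 * G * (k * D) + 864 * (k * D) + 18 := by
          rw [hΓ]; ring
      _ ≤ 6 * (k * D) + 432 * G * (k * D) + 864 * (k * D) + 18 * (k * D) := by omega
      _ = (432 * G + 888) * (k * D) := by ring
      _ ≤ k * (k * D) := Nat.mul_le_mul_right _ h1
      _ = k * k * D := by ring
  obtain ⟨w0, hw0⟩ := core d k Γ D hD (by omega) e he1 he2 hΓ'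
  obtain ⟨F, hF⟩ : ∃ F, F = f k * k := ⟨_, rfl⟩
  obtain ⟨B0, hB0⟩ := card_VG_le k F
  obtain ⟨w1, hw1⟩ := eventually_poly_le (h k + 2) 0
  obtain ⟨w, hw⟩ : ∃ w, w = max (max w0 w1) (max B0 1) := ⟨_, rfl⟩
  have hww0 : w ≥ w0 := by rw [hw]; exact le_trans (le_max_left _ _) (le_max_left _ _)
  have hww1 : w ≥ w1 := by rw [hw]; exact le_trans (le_max_right _ _) (le_max_left _ _)
  have hww2 : w ≥ B0 := by rw [hw]; exact le_trans (le_max_left _ _) (le_max_right _ _)
  have hww3 : w ≥ 1 := by rw [hw]; exact le_trans (le_max_right _ _) (le_max_right _ _)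
  obtain ⟨B, hB⟩ : ∃ B, B = 2 * k * D * w := ⟨_, rfl⟩
  have hBw : w ≤ B := by
    rw [hB]
    exact Nat.le_mul_of_pos_left _ (Nat.mul_pos (by omega) (by omega))
  have hN := hB0 B (by omega)
  obtain ⟨N, hNdef⟩ : ∃ N, N = Fintype.card (VG k B F) := ⟨_, rfl⟩
  have E : VG k B F ≃ Fin N := (Fintype.equivFin _).trans (finCongr hNdef.symm)
  rw [← hNdef] at hN
  have hN1 : 1 ≤ N := by
    rw [hNdef]
    have : Nonempty (VG k B F) := ⟨Sum.inl (⟨0, by omega⟩, fun _ _ => false)⟩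
    exact Fintype.card_pos
  obtain ⟨hdepth, hsize⟩ := hsz N k hN1 (by omega)
  -- size bound
  have hW : Fintype.card (Pairs N) + (C N k).size + 1 ≤ 2 ^ (Γ * w) := by
    have h1 : ((C N k).size : ℝ) ≤ (h k : ℝ) * ((N : ℝ) ^ G) := by
      refine le_trans hsize ?_
      refine mul_le_mul_of_nonneg_left ?_ (Nat.cast_nonneg _)
      rw [← Real.rpow_natCast]
      exact Real.rpow_le_rpow_of_exponent_le (by exact_mod_cast hN1) hgk
    have h2 : (C N k).size ≤ h k * N ^ G := by exact_mod_cast h1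
    have h3 := card_pairs_le N
    have h4 : N * N ≤ 2 ^ (18 * B * (G + 2)) := by
      calc N * N ≤ 2 ^ (18 * B) * 2 ^ (18 * B) := Nat.mul_le_mul hN hN
        _ = 2 ^ (18 * B * 2) := by rw [← pow_add]; congr 1; ring
        _ ≤ _ := Nat.pow_le_pow_right (by norm_num) (Nat.mul_le_mul_left _ (by omega))
    have h5 : N ^ G ≤ 2 ^ (18 * B * (G + 2)) := by
      calc N ^ G ≤ (2 ^ (18 * B)) ^ G := Nat.pow_le_pow_left hN _
        _ = 2 ^ (18 * B * G) := by rw [← pow_mul]
        _ ≤ _ := Nat.pow_le_pow_right (by norm_num) (Nat.mul_le_mul_left _ (by omega))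
    have h6 : 1 ≤ 2 ^ (18 * B * (G + 2)) := Nat.one_le_two_pow
    have h7 := hw1 w hww1
    rw [pow_zero, mul_one] at h7
    calc Fintype.card (Pairs N) + (C N k).size + 1 ≤
          2 ^ (18 * B * (G + 2)) + h k * 2 ^ (18 * B * (G + 2)) + 2 ^ (18 * B * (G + 2)) := by
          refine Nat.add_le_add (Nat.add_le_add (le_trans h3 h4) (le_trans h2 ?_)) h6
          exact Nat.mul_le_mul_left _ h5
      _ = (h k + 2) * 2 ^ (18 * B * (G + 2)) := by ring
      _ ≤ 2 ^ w * 2 ^ (18 * B * (G + 2)) := Nat.mul_le_mul_right _ h7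
      _ = 2 ^ (Γ * w) := by
          rw [← pow_add]
          congr 1
          rw [hB, hΓ]
          ring
  obtain ⟨x, v, hx, hev⟩ := hw0 w hww0 B hB (Pairs N) (C N k)
    (fun x => adjBits (GX E e x)) (fun p => bits_form E e p) hdepth hW
  have hno := (happ N k hN1 (by omega) (GX E e x)).2 (by
    rw [← hF]
    exact lt_gamma (by omega) E e x hx)
  have hyes := (happ N k hN1 (by omega) (GX E e (plant e v Finset.univ x))).1
    (gamma_le (by omega) E e _ v (by
      intro j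
      unfold plant
      rw [Bool.or_eq_true, decide_eq_true_eq]
      exact Or.inr ⟨j, Finset.mem_univ _, rfl⟩))
  rw [hno, hyes] at hev
  exact absurd hev (by simp)

end Pool.Agent.Lib.MP_01def2_lc
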