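import Pool.Agent.Lib.MP_01def2_lc.Prob

/-!
Existence of sparse expanding patterns.
-/

namespace Pool.Agent.Lib.MP_01def2_lc

open Finset

theorem exists_random_pattern (k : ℕ) (hk : 1 ≤ k) :
    ∃ e : Fin k → Fin 15 → Fin k, ∀ H T : Finset (Fin k), k ≤ 3 * H.card → 4 * T.card ≤ 3 * k →
      ∃ j ∈ H, ∃ i, e j i ∉ T := by
  classical
  by_contra hcon
  push Not at hcon
  have hk' : (0 : ℝ) < k := by exact_mod_cast hk
  let μ : Fin k × Fin 15 → Fin k → ℝ := fun _ _ => 1 / (k : ℝ)
  have hμ : ∀ i a, 0 ≤ μ i a := fun _ _ => by positivity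
  have hμ1 : ∀ i, ∑ a, μ i a = 1 := by
    intro i
    simp only [μ, Finset.sum_const, Finset.card_univ, Fintype.card_fin, nsmul_eq_mul]
    field_simp
  set S := ((Finset.univ : Finset (Fin k)).powerset ×ˢ
    (Finset.univ : Finset (Fin k)).powerset).filter
      (fun HT => k ≤ 3 * HT.1.card ∧ 4 * HT.2.card ≤ 3 * k) with hS
  have h1 : (1 : ℝ) ≤ Pb μ (fun ρ => ∃ HT ∈ S, ∀ x ∈ HT.1 ×ˢ (Finset.univ : Finset (Fin 15)),
      ρ x ∈ HT.2) := by
    rw [← PE_one hμ1]
    unfold Pb
    refine PE_mono hμ fun ρ => ?_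
    rw [if_pos]
    obtain ⟨H, T, hH, hT, hall⟩ := hcon (fun j i => ρ (j, i))
    refine ⟨(H, T), ?_, ?_⟩
    · simp [hS, hH, hT]
    · intro x hx
      rw [Finset.mem_product] at hx
      exact hall x.1 hx.1 x.2
  have h2 := Pb_exists_le hμ S (fun HT ρ => ∀ x ∈ HT.1 ×ˢ (Finset.univ : Finset (Fin 15)),
      ρ x ∈ HT.2)
  have h3 : ∀ HT ∈ S, Pb μ (fun ρ => ∀ x ∈ HT.1 ×ˢ (Finset.univ : Finset (Fin 15)),
      ρ x ∈ HT.2) ≤ ((3 / 4 : ℝ) ^ 5) ^ k := by
    intro HT hHT
    rw [hS, Finset.mem_filter] at hHT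
    rw [Pb_cyl hμ1 _ (fun _ a => a ∈ HT.2)]
    have h4 : ∀ x ∈ HT.1 ×ˢ (Finset.univ : Finset (Fin 15)),
        ∑ a, μ x a * (@ite ℝ (a ∈ HT.2) (Classical.propDecidable _) 1 0) =
          (HT.2.card : ℝ) / k := by
      intro x _
      have h5 : ∀ a : Fin k, μ x a * (@ite ℝ (a ∈ HT.2) (Classical.propDecidable _) 1 0) =
          if a ∈ HT.2 then 1 / (k : ℝ) else 0 := by
        intro a
        by_cases h : a ∈ HT.2 <;> simp [h, μ]
      rw [Finset.sum_congr rfl (fun a _ => h5 a)]
      rw [Finset.sum_ite_mem, Finset.univ_inter, Finset.sum_const, nsmul_eq_mul]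
      ring
    rw [Finset.prod_congr rfl h4, Finset.prod_const, Finset.card_product, Finset.card_univ,
      Fintype.card_fin]
    have h5 : (HT.2.card : ℝ) / k ≤ 3 / 4 := by
      rw [div_le_div_iff₀ hk' (by norm_num)]
      have := hHT.2.2
      have h6 : (4 : ℝ) * HT.2.card ≤ 3 * k := by exact_mod_cast this
      linarith
    calc ((HT.2.card : ℝ) / k) ^ (HT.1.card * 15) ≤ (3 / 4 : ℝ) ^ (HT.1.card * 15) :=
          pow_le_pow_left₀ (by positivity) h5 _
      _ ≤ (3 / 4 : ℝ) ^ (5 * k) :=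
          pow_le_pow_of_le_one (by norm_num) (by norm_num) (by have := hHT.2.1; omega)
      _ = _ := by rw [pow_mul]
  have h7 : (1 : ℝ) ≤ (S.card : ℝ) * ((3 / 4 : ℝ) ^ 5) ^ k := by
    refine le_trans h1 (le_trans h2 (le_trans (Finset.sum_le_sum h3) ?_))
    rw [Finset.sum_const, nsmul_eq_mul]
  have h8 : (S.card : ℝ) ≤ (4 : ℝ) ^ k := by
    have : S.card ≤ 4 ^ k := by
      refine le_trans (Finset.card_filter_le _ _) ?_
      rw [Finset.card_product, Finset.card_powerset, Finset.card_univ, Fintype.card_fin,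
        ← mul_pow]
      norm_num
    exact_mod_cast this
  have h9 : (4 : ℝ) ^ k * ((3 / 4 : ℝ) ^ 5) ^ k < 1 := by
    rw [← mul_pow]
    exact pow_lt_one₀ (by positivity) (by norm_num) (by omega)
  have h10 : (S.card : ℝ) * ((3 / 4 : ℝ) ^ 5) ^ k ≤ (4 : ℝ) ^ k * ((3 / 4 : ℝ) ^ 5) ^ k :=
    mul_le_mul_of_nonneg_right h8 (by positivity)
  linarith

/-- positions inside a scope -/
abbrev Pos : Type := Option (Option (Fin 15))

/-- variables covered by a set of scopes -/
def cov {k : ℕ} (e : Fin k → Pos → Fin k) (H : Finset (Fin k)) : Finset (Fin k) :=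
  H.biUnion (fun j => Finset.univ.image (e j))

theorem mem_cov {k : ℕ} {e : Fin k → Pos → Fin k} {H : Finset (Fin k)} {j : Fin k} (hj : j ∈ H)
    (a : Pos) : e j a ∈ cov e H := by
  unfold cov
  rw [Finset.mem_biUnion]
  exact ⟨j, hj, Finset.mem_image_of_mem _ (Finset.mem_univ _)⟩

theorem exists_pattern (k : ℕ) (hk : 1 ≤ k) :
    ∃ e : Fin k → Pos → Fin k,
      (∀ H : Finset (Fin k), H.Nonempty → H ≠ Finset.univ → H.card + 1 ≤ (cov e H).card) ∧
      (∀ H : Finset (Fin k), k ≤ 3 * H.card → 3 * k < 4 * (cov e H).card) := by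
  obtain ⟨e, he⟩ := exists_random_pattern k hk
  have : NeZero k := ⟨by omega⟩
  let e' : Fin k → Pos → Fin k := fun j a => match a with
    | none => j
    | some none => j + 1
    | some (some i) => e j i
  refine ⟨e', ?_, ?_⟩
  · intro H hne hun
    have hsub : H ⊆ cov e' H := fun j hj => by
      have := mem_cov (e := e') hj none
      exact this
    -- some successor leaves H
    have hex : ∃ j ∈ H, j + 1 ∉ H := by
      by_contra hcon
      push Not at hcon
      apply hun
      obtain ⟨j0, hj0⟩ := hne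
      have hall : ∀ n : ℕ, j0 + (Fin.ofNat k n) ∈ H := by
        intro n
        induction n with
        | zero =>
          have : (Fin.ofNat k 0) = 0 := by simp
          rw [this, add_zero]
          exact hj0
        | succ n ih =>
          have h1 := hcon _ ih
          have h2 : (Fin.ofNat k (n + 1)) = Fin.ofNat k n + 1 := by
            apply Fin.ext
            simp [Fin.val_add, Fin.ofNat]
          rw [h2, ← add_assoc]
          exact h1
      ext x
      simp only [Finset.mem_univ, iff_true]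
      have h3 := hall (x - j0).val
      have h4 : Fin.ofNat k (x - j0).val = x - j0 := by
        apply Fin.ext
        simp [Fin.ofNat, Nat.mod_eq_of_lt (x - j0).isLt]
      rw [h4] at h3
      simpa using h3
    obtain ⟨j, hj, hj1⟩ := hex
    have h5 : insert (j + 1) H ⊆ cov e' H := by
      intro x hx
      rw [Finset.mem_insert] at hx
      rcases hx with rfl | hx
      · exact mem_cov (e := e') hj (some none)
      · exact hsub hx
    have h6 := Finset.card_le_card h5
    rw [Finset.card_insert_of_notMem hj1] at h6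
    exact h6
  · intro H hH
    by_contra hcon
    push Not at hcon
    obtain ⟨j, hj, i, hi⟩ := he H (cov e' H) hH hcon
    exact hi (mem_cov (e := e') hj (some (some i)))

end Pool.Agent.Lib.MP_01def2_lc
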