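import Pool.Agent.Lib.MP_01def2_lc.Pattern
import Pool.Agent.Lib.MP_01def2_lc.DepthInd

/-!
Planting partial solutions: no function that becomes a small junta under random restrictions
is sensitive to a planted sub-pattern, except with small probability.
-/

namespace Pool.Agent.Lib.MP_01def2_lc

open Finset

/-- the domain of values: bit strings of length `B` -/
abbrev Dom (B : ℕ) : Type := Fin B → Bool
/-- the possible tuples -/
abbrev Tup (k B : ℕ) : Type := Fin k × (Pos → Dom B)
/-- the auxiliary unbiased variables -/
abbrev ZV (k B : ℕ) : Type := Tup k B × Fin (B + 1)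

section
variable {k B : ℕ}

/-- a tuple is present iff all its `B + 1` auxiliary bits are one -/
def xof (z : ZV k B → Bool) : Tup k B → Bool := fun t => decide (∀ i, z (t, i) = true)

/-- the tuple of scope `j` given by the assignment `v` -/
def tup (e : Fin k → Pos → Fin k) (v : Fin k → Dom B) (j : Fin k) : Tup k B :=
  (j, fun a => v (e j a))

theorem tup_injective (e : Fin k → Pos → Fin k) (v : Fin k → Dom B) :
    Function.Injective (tup e v) := by
  intro i j h
  exact congrArg Prod.fst h

/-- plant the tuples of the scopes in `A` -/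
def plant (e : Fin k → Pos → Fin k) (v : Fin k → Dom B) (A : Finset (Fin k))
    (x : Tup k B → Bool) : Tup k B → Bool := fun t => x t || decide (∃ j ∈ A, t = tup e v j)

/-- erase the tuples of the scopes in `H` -/
def offH (e : Fin k → Pos → Fin k) (v : Fin k → Dom B) (H : Finset (Fin k))
    (x : Tup k B → Bool) : Tup k B → Bool := fun t => x t && ! decide (∃ j ∈ H, t = tup e v j)

/-- `g` is sensitive to every planted tuple of `H` -/
def DD (g : (Tup k B → Bool) → Bool) (e : Fin k → Pos → Fin k) (v : Fin k → Dom B)
    (x : Tup k B → Bool) (H : Finset (Fin k)) : Prop :=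
  ∀ j ∈ H, ∃ A ⊆ H, g (plant e v A x) ≠ g (plant e v (insert j A) x)

open scoped Classical in
/-- the set of scopes to which `g` is sensitive -/
noncomputable def sens (g : (Tup k B → Bool) → Bool) (e : Fin k → Pos → Fin k)
    (v : Fin k → Dom B) (x : Tup k B → Bool) : Finset (Fin k) :=
  Finset.univ.filter (fun j => ∃ A, g (plant e v A x) ≠ g (plant e v (insert j A) x))

theorem sens_inter (g : (Tup k B → Bool) → Bool) (e : Fin k → Pos → Fin k)
    (v : Fin k → Dom B) (x : Tup k B → Bool) (A : Finset (Fin k)) :
    g (plant e v A x) = g (plant e v (A ∩ sens g e v x) x) := by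
  classical
  induction A using Finset.induction_on with
  | empty => simp
  | insert j A hj ih =>
    by_cases hs : j ∈ sens g e v x
    · -- sensitive element: argue by removing the others one at a time
      have key : ∀ R : Finset (Fin k), (∀ i ∈ R, i ∉ sens g e v x) → ∀ T : Finset (Fin k),
          g (plant e v (T ∪ R) x) = g (plant e v T x) := by
        intro R
        induction R using Finset.induction_on with
        | empty => intro _ T; simp
        | insert i R hi ihR =>
          intro hR T
          have h1 : i ∉ sens g e v x := hR i (Finset.mem_insert_self _ _)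
          have h2 := ihR (fun a ha => hR a (Finset.mem_insert_of_mem ha)) T
          have h3 : g (plant e v (T ∪ R) x) = g (plant e v (insert i (T ∪ R)) x) := by
            by_contra hcon
            apply h1
            unfold sens
            rw [Finset.mem_filter]
            exact ⟨Finset.mem_univ _, _, hcon⟩
          rw [Finset.union_insert, ← h3, h2]
      have h4 := key ((insert j A) \ sens g e v x)
        (fun i hi => (Finset.mem_sdiff.mp hi).2) ((insert j A) ∩ sens g e v x)
      rw [Finset.union_comm, Finset.sdiff_union_inter] at h4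
      exact h4
    · have h1 : g (plant e v A x) = g (plant e v (insert j A) x) := by
        by_contra hcon
        apply hs
        unfold sens
        rw [Finset.mem_filter]
        exact ⟨Finset.mem_univ _, _, hcon⟩
      rw [← h1, ih, Finset.insert_inter_of_notMem hs]

theorem sens_DD (g : (Tup k B → Bool) → Bool) (e : Fin k → Pos → Fin k)
    (v : Fin k → Dom B) (x : Tup k B → Bool) : DD g e v x (sens g e v x) := by
  classical
  intro j hj
  have hj' := hj
  unfold sens at hj'
  rw [Finset.mem_filter] at hj'
  obtain ⟨_, A, hA⟩ := hj'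
  refine ⟨A ∩ sens g e v x, Finset.inter_subset_right, ?_⟩
  rw [← sens_inter g e v x A]
  have h2 : insert j (A ∩ sens g e v x) = (insert j A) ∩ sens g e v x := by
    rw [Finset.insert_inter_of_mem hj]
  rw [h2, ← sens_inter g e v x (insert j A)]
  exact hA

theorem plant_empty (e : Fin k → Pos → Fin k) (v : Fin k → Dom B) (x : Tup k B → Bool) :
    plant e v ∅ x = x := by
  funext t
  simp [plant]

theorem eq_of_sens_empty (g : (Tup k B → Bool) → Bool) (e : Fin k → Pos → Fin k)
    (v : Fin k → Dom B) (x : Tup k B → Bool) (h : sens g e v x = ∅) (A : Finset (Fin k)) :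
    g (plant e v A x) = g x := by
  rw [sens_inter g e v x A, h, Finset.inter_empty, plant_empty]

theorem DD_off (g : (Tup k B → Bool) → Bool) (e : Fin k → Pos → Fin k)
    (v : Fin k → Dom B) (x : Tup k B → Bool) (H : Finset (Fin k)) (h : DD g e v x H) :
    DD g e v (offH e v H x) H := by
  have h1 : ∀ j ∈ H, x (tup e v j) = false := by
    intro j hj
    by_contra hcon
    obtain ⟨A, _, hne⟩ := h j hj
    apply hne
    congr 1
    funext t
    unfold plant
    by_cases ht : t = tup e v j
    · subst ht
      simp only [Bool.not_eq_false] at hcon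
      simp [hcon]
    · congr 1
      simp only [Finset.mem_insert, decide_eq_decide]
      constructor
      · rintro ⟨i, hi, rfl⟩
        exact ⟨i, Or.inr hi, rfl⟩
      · rintro ⟨i, hi | hi, hti⟩
        · subst hi; exact absurd hti ht
        · exact ⟨i, hi, hti⟩
  have h2 : offH e v H x = x := by
    funext t
    unfold offH
    by_cases ht : ∃ j ∈ H, t = tup e v j
    · obtain ⟨j, hj, rfl⟩ := ht
      rw [h1 j hj]
      simp
    · simp [ht]
  rw [h2]
  exact h

/-- the coordinates of the planted tuples -/
def WW (e : Fin k → Pos → Fin k) (v : Fin k → Dom B) (H : Finset (Fin k)) :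
    Finset (ZV k B) :=
  (H.map ⟨tup e v, tup_injective e v⟩) ×ˢ (Finset.univ : Finset (Fin (B + 1)))

theorem mem_WW (e : Fin k → Pos → Fin k) (v : Fin k → Dom B) (H : Finset (Fin k))
    (p : ZV k B) : p ∈ WW e v H ↔ ∃ j ∈ H, p.1 = tup e v j := by
  unfold WW
  rw [Finset.mem_product]
  simp [eq_comm]

/-- local star pattern -/
def SP (p : ZV k B) (o : Option Bool) : Prop := if p.2 = 0 then o = none else o = some true

/-- exactly one star in each planted tuple, everything else one -/
def St (e : Fin k → Pos → Fin k) (v : Fin k → Dom B) (H : Finset (Fin k))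
    (ρ : ZV k B → Option Bool) : Prop := ∀ p ∈ WW e v H, SP p (ρ p)

theorem Pb_St (e : Fin k → Pos → Fin k) (v : Fin k → Dom B) (H : Finset (Fin k)) (q : ℝ) :
    Pb (wt (ZV k B) q) (St e v H) = (q * ((1 - q) / 2) ^ B) ^ H.card := by
  classical
  have h := Pb_cyl (wt_sum (X := ZV k B) q) (WW e v H) SP
  have h' : Pb (wt (ZV k B) q) (St e v H) =
    ∏ i ∈ WW e v H, ∑ a, wt (ZV k B) q i a *
      (@ite ℝ (SP i a) (Classical.propDecidable _) 1 0) := h
  rw [h']
  have h2 : ∀ p : ZV k B, ∑ a, wt (ZV k B) q p a *
      (@ite ℝ (SP p a) (Classical.propDecidable _) 1 0) = if p.2 = 0 then q else (1 - q) / 2 := by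
    intro p
    by_cases hp : p.2 = 0
    · simp [SP, hp, wt]
    · simp [SP, hp, wt]
  rw [Finset.prod_congr rfl (fun p _ => h2 p)]
  unfold WW
  rw [Finset.prod_product]
  have h3 : ∀ t : Tup k B, ∏ i : Fin (B + 1),
      (if ((t, i) : ZV k B).2 = 0 then q else (1 - q) / 2) = q * ((1 - q) / 2) ^ B := by
    intro t
    rw [Fin.prod_univ_succ]
    simp [Fin.succ_ne_zero, div_pow]
  rw [Finset.prod_congr rfl (fun t _ => h3 t), Finset.prod_const, Finset.card_map]

open scoped Classical in
/-- number of elements with a property -/
noncomputable def cnt {α : Type} [Fintype α] (P : α → Prop) : ℕ :=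
  (Finset.univ.filter P).card

theorem cnt_mono {α : Type} [Fintype α] {P Q : α → Prop} (h : ∀ v, P v → Q v) :
    cnt P ≤ cnt Q := by
  classical
  unfold cnt
  refine Finset.card_le_card ?_
  intro v hv
  rw [Finset.mem_filter] at hv ⊢
  exact ⟨hv.1, h v hv.2⟩

theorem cnt_le {α : Type} [Fintype α] (P : α → Prop) : cnt P ≤ Fintype.card α := by
  classical
  unfold cnt
  exact Finset.card_le_univ _

open scoped Classical in
theorem cnt_eq_sum {α : Type} [Fintype α] (P : α → Prop) :
    (cnt P : ℝ) = ∑ v, @ite ℝ (P v) (Classical.propDecidable _) 1 0 := by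
  unfold cnt
  rw [Finset.card_filter]
  push_cast
  rfl

theorem count_assign (e : Fin k → Pos → Fin k) (H : Finset (Fin k)) (S : Finset (ZV k B))
    (b : ℕ) (hS : S.card ≤ b) :
    cnt (fun v : Fin k → Dom B => ∀ j ∈ H, (tup e v j, (0 : Fin (B + 1))) ∈ S)
      ≤ b ^ H.card * (2 ^ B) ^ (k - (cov e H).card) := by
  classical
  unfold cnt
  rw [← Fintype.card_subtype]
  let F : {v : Fin k → Dom B // ∀ j ∈ H, (tup e v j, (0 : Fin (B + 1))) ∈ S} →
      (H → S) × (((cov e H)ᶜ : Finset (Fin k)) → Dom B) :=
    fun v => (fun j => ⟨(tup e v.1 j.1, 0), v.2 j.1 j.2⟩, fun u => v.1 u.1)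
  have hF : Function.Injective F := by
    intro v v' h
    apply Subtype.ext
    funext u
    have h1 := congrArg Prod.fst h
    have h2 := congrArg Prod.snd h
    by_cases hu : u ∈ cov e H
    · unfold cov at hu
      rw [Finset.mem_biUnion] at hu
      obtain ⟨j, hj, hu⟩ := hu
      rw [Finset.mem_image] at hu
      obtain ⟨a, _, rfl⟩ := hu
      have h3 := congrFun h1 ⟨j, hj⟩
      have h4 : tup e v.1 j = tup e v'.1 j := congrArg (fun p => p.1.1) h3
      exact congrFun (congrArg Prod.snd h4) a
    · have h3 := congrFun h2 ⟨u, by simpa using hu⟩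
      exact h3
  refine le_trans (Fintype.card_le_of_injective F hF) ?_
  rw [Fintype.card_prod, Fintype.card_fun, Fintype.card_fun, Fintype.card_coe, Fintype.card_coe,
    Fintype.card_coe, Finset.card_compl, Fintype.card_fin]
  refine Nat.mul_le_mul (Nat.pow_le_pow_left hS _) ?_
  rw [Fintype.card_fun, Fintype.card_fin, Fintype.card_bool]

/-- uniform weights -/
noncomputable def un (X : Type) : X → Bool → ℝ := fun _ _ => 1 / 2

theorem un_nonneg {X : Type} (x : X) (b : Bool) : 0 ≤ un X x b := by
  unfold un; norm_num

theorem un_sum {X : Type} (x : X) : ∑ b, un X x b = 1 := by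
  unfold un; simp

/-- the joint weights of a restriction and a completion -/
noncomputable def jt (X : Type) (q : ℝ) : X → Option Bool × Bool → ℝ :=
  fun x ob => wt X q x ob.1 * un X x ob.2

theorem jt_sum {X : Type} (q : ℝ) (x : X) : ∑ ob, jt X q x ob = 1 := by
  unfold jt
  rw [Fintype.sum_prod_type]
  simp only [← Finset.mul_sum, un_sum, mul_one, wt_sum]

theorem PE_rs {X : Type} [Fintype X] (q : ℝ) (F : (X → Bool) → ℝ) :
    PE (jt X q) (fun τ => F (rs (fun i => (τ i).1) (fun i => (τ i).2))) = PE (un X) F := by
  classical
  refine PE_map (jt X q) (un X) (fun _ ob => ob.1.getD ob.2) ?_ F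
  intro i c
  rw [Finset.sum_filter, Fintype.sum_prod_type]
  cases c
  · simp [Fintype.sum_option, jt, wt, un]
    ring
  · simp [Fintype.sum_option, jt, wt, un]
    ring

/-- The deterministic part: if `g` restricted by `ρ` is a small junta, then few planted
patterns with one star per tuple are sensitive. -/
theorem count_sensitive (g : (Tup k B → Bool) → Bool) (e : Fin k → Pos → Fin k)
    (H : Finset (Fin k)) (b : ℕ) (ρ : ZV k B → Option Bool) (y : ZV k B → Bool)
    (hj : Junta b (fun z => g (xof (rs ρ z)))) :
    (cnt (fun v : Fin k → Dom B => St e v H ρ ∧ DD g e v (offH e v H (xof (rs ρ y))) H) : ℝ) ≤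
      (b : ℝ) ^ H.card * (2 ^ B) ^ (k - (cov e H).card) := by
  classical
  obtain ⟨S, hS, hdep⟩ := hj
  have h1 := count_assign e H S b hS
  have h2 : cnt (fun v : Fin k → Dom B => St e v H ρ ∧ DD g e v (offH e v H (xof (rs ρ y))) H) ≤
      cnt (fun v : Fin k → Dom B => ∀ j ∈ H, (tup e v j, (0 : Fin (B + 1))) ∈ S) := by
    refine cnt_mono ?_
    intro v hv
    obtain ⟨hSt, hDD⟩ := hv
    intro j hjH
    by_contra hcon
    obtain ⟨A, hA, hne⟩ := hDD j hjH
    -- completions realising planted patterns
    let yy : Finset (Fin k) → ZV k B → Bool := fun A p =>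
      if ∃ i ∈ H, p = (tup e v i, (0 : Fin (B + 1))) then decide (∃ i ∈ A, p.1 = tup e v i) else y p
    have hyy : ∀ A : Finset (Fin k), A ⊆ H →
        xof (rs ρ (yy A)) = plant e v A (offH e v H (xof (rs ρ y))) := by
      intro A hA
      funext t
      by_cases ht : ∃ i ∈ H, t = tup e v i
      · obtain ⟨i, hi, rfl⟩ := ht
        have e1 : xof (rs ρ (yy A)) (tup e v i) = decide (∃ i' ∈ A, tup e v i = tup e v i') := by
          unfold xof
          rw [decide_eq_decide]
          constructor
          · intro hall
            have h0 := hall 0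
            have hs : SP (tup e v i, (0 : Fin (B + 1))) (ρ (tup e v i, 0)) :=
              hSt _ ((mem_WW e v H _).mpr ⟨i, hi, rfl⟩)
            unfold SP at hs
            rw [if_pos rfl] at hs
            unfold rs at h0
            rw [hs, Option.getD_none] at h0
            simp only [yy] at h0
            rw [if_pos ⟨i, hi, rfl⟩] at h0
            simpa using h0
          · intro hex a
            have hs : SP (tup e v i, a) (ρ (tup e v i, a)) :=
              hSt _ ((mem_WW e v H _).mpr ⟨i, hi, rfl⟩)
            unfold SP at hs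
            by_cases ha : a = 0
            · subst ha
              rw [if_pos rfl] at hs
              unfold rs
              rw [hs, Option.getD_none]
              simp only [yy]
              rw [if_pos ⟨i, hi, rfl⟩]
              simpa using hex
            · rw [if_neg (by simpa using ha)] at hs
              unfold rs
              rw [hs]
              rfl
        rw [e1]
        unfold plant offH
        have e2 : (decide (∃ j ∈ H, tup e v i = tup e v j)) = true := by
          rw [decide_eq_true_eq]
          exact ⟨i, hi, rfl⟩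
        rw [e2]
        simp
      · have e1 : xof (rs ρ (yy A)) t = xof (rs ρ y) t := by
          unfold xof
          rw [decide_eq_decide]
          refine forall_congr' fun a => ?_
          unfold rs
          have : yy A (t, a) = y (t, a) := by
            simp only [yy]
            rw [if_neg]
            rintro ⟨i, hi, hti⟩
            exact ht ⟨i, hi, congrArg Prod.fst hti⟩
          rw [this]
        rw [e1]
        unfold plant offH
        have e2 : (decide (∃ j ∈ H, t = tup e v j)) = false := by
          rw [decide_eq_false_iff_not]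
          exact ht
        have e3 : (decide (∃ j ∈ A, t = tup e v j)) = false := by
          rw [decide_eq_false_iff_not]
          rintro ⟨i, hi, hti⟩
          exact ht ⟨i, hA hi, hti⟩
        rw [e2, e3]
        simp
    apply hne
    rw [← hyy A hA, ← hyy (insert j A) (Finset.insert_subset hjH hA)]
    refine hdep ?_
    intro p hp
    have hp' : p ∈ S := by simpa using hp
    simp only [yy]
    by_cases hpp : ∃ i ∈ H, p = (tup e v i, (0 : Fin (B + 1)))
    · rw [if_pos hpp, if_pos hpp, decide_eq_decide]
      obtain ⟨i, hi, rfl⟩ := hpp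
      have hij : i ≠ j := by
        rintro rfl
        exact hcon hp'
      constructor
      · rintro ⟨i', hi', h⟩
        exact ⟨i', Finset.mem_insert_of_mem hi', h⟩
      · rintro ⟨i', hi', h⟩
        rw [Finset.mem_insert] at hi'
        rcases hi' with rfl | hi'
        · exact absurd (tup_injective e v h) hij
        · exact ⟨i', hi', h⟩
    · rw [if_neg hpp, if_neg hpp]
  have h3 := le_trans h2 h1
  exact_mod_cast h3

/-- The probability that `g` is sensitive to the planted pattern `H`, summed over all
assignments. -/
theorem sum_sensitive (g : (Tup k B → Bool) → Bool) (e : Fin k → Pos → Fin k)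
    (H : Finset (Fin k)) (b : ℕ) {q : ℝ} (hq0 : 0 ≤ q) (hq1 : q ≤ 1) :
    (q * ((1 - q) / 2) ^ B) ^ H.card *
      ∑ v : Fin k → Dom B, Pb (un (ZV k B)) (fun z => DD g e v (xof z) H) ≤
      (b : ℝ) ^ H.card * (2 ^ B) ^ (k - (cov e H).card) +
      (2 ^ B) ^ k * Pb (wt (ZV k B) q) (fun ρ => ¬ Junta b (fun z => g (xof (rs ρ z)))) := by
  classical
  have hjt : ∀ (p : ZV k B) (ob : Option Bool × Bool), 0 ≤ jt (ZV k B) q p ob := fun p ob =>
    mul_nonneg (wt_nonneg hq0 hq1 _ _) (un_nonneg _ _)
  -- replace by the erased version
  have h1 : ∀ v : Fin k → Dom B, Pb (un (ZV k B)) (fun z => DD g e v (xof z) H) ≤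
      Pb (un (ZV k B)) (fun z => DD g e v (offH e v H (xof z)) H) := fun v =>
    Pb_mono un_nonneg (fun z hz => DD_off g e v (xof z) H hz)
  -- joint probability factorises
  have h2 : ∀ v : Fin k → Dom B, (q * ((1 - q) / 2) ^ B) ^ H.card *
      Pb (un (ZV k B)) (fun z => DD g e v (offH e v H (xof z)) H) =
      Pb (jt (ZV k B) q) (fun τ => St e v H (fun i => (τ i).1) ∧
        DD g e v (offH e v H (xof (rs (fun i => (τ i).1) (fun i => (τ i).2)))) H) := by
    intro v
    rw [Pb_indep (jt_sum q) (WW e v H)]
    · congr 1
      · rw [← Pb_St e v H q]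
        unfold Pb
        have h3 := PE_PE (wt (ZV k B) q) (un (ZV k B))
          (fun ρ _ => @ite ℝ (St e v H ρ) (Classical.propDecidable _) 1 0)
        simp only [PE_const un_sum] at h3
        exact h3
      · unfold Pb
        exact (PE_rs q (fun z => @ite ℝ (DD g e v (offH e v H (xof z)) H)
          (Classical.propDecidable _) 1 0)).symm
    · intro τ τ' hττ
      have : St e v H (fun i => (τ i).1) ↔ St e v H (fun i => (τ' i).1) := by
        unfold St
        refine forall₂_congr fun p hp => ?_
        simp only [hττ p (by simpa using hp)]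
      exact propext this
    · intro τ τ' hττ
      have : offH e v H (xof (rs (fun i => (τ i).1) (fun i => (τ i).2))) =
          offH e v H (xof (rs (fun i => (τ' i).1) (fun i => (τ' i).2))) := by
        funext t
        unfold offH
        by_cases ht : ∃ j ∈ H, t = tup e v j
        · simp [ht]
        · have e1 : xof (rs (fun i => (τ i).1) (fun i => (τ i).2)) t =
              xof (rs (fun i => (τ' i).1) (fun i => (τ' i).2)) t := by
            unfold xof
            rw [decide_eq_decide]
            refine forall_congr' fun a => ?_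
            unfold rs
            have : (t, a) ∈ ((WW e v H : Finset (ZV k B)) : Set (ZV k B))ᶜ := by
              rw [Set.mem_compl_iff, Finset.mem_coe, mem_WW]
              exact ht
            simp only [hττ _ this]
          rw [e1]
      simp only [this]
  -- sum over v
  have h4 : (q * ((1 - q) / 2) ^ B) ^ H.card *
      ∑ v : Fin k → Dom B, Pb (un (ZV k B)) (fun z => DD g e v (xof z) H) ≤
      PE (jt (ZV k B) q) (fun τ => (cnt (fun v : Fin k → Dom B =>
        St e v H (fun i => (τ i).1) ∧
        DD g e v (offH e v H (xof (rs (fun i => (τ i).1) (fun i => (τ i).2)))) H) : ℝ)) := by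
    rw [Finset.mul_sum]
    have hκ : 0 ≤ (q * ((1 - q) / 2) ^ B) ^ H.card := by
      have : 0 ≤ (1 - q) / 2 := by linarith
      positivity
    refine le_trans (Finset.sum_le_sum fun v _ =>
      le_trans (mul_le_mul_of_nonneg_left (h1 v) hκ) (le_of_eq (h2 v))) ?_
    unfold Pb
    rw [← PE_sum]
    refine le_of_eq ?_
    congr 1
    funext τ
    rw [cnt_eq_sum]
  refine le_trans h4 ?_
  -- bound the count
  have h5 : PE (jt (ZV k B) q) (fun τ => (cnt (fun v : Fin k → Dom B =>
        St e v H (fun i => (τ i).1) ∧
        DD g e v (offH e v H (xof (rs (fun i => (τ i).1) (fun i => (τ i).2)))) H) : ℝ)) ≤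
      PE (jt (ZV k B) q) (fun τ => (b : ℝ) ^ H.card * (2 ^ B) ^ (k - (cov e H).card) +
        (2 ^ B) ^ k * (@ite ℝ (¬ Junta b (fun z => g (xof (rs (fun i => (τ i).1) z))))
          (Classical.propDecidable _) 1 0)) := by
    refine PE_mono hjt fun τ => ?_
    by_cases hJ : Junta b (fun z => g (xof (rs (fun i => (τ i).1) z)))
    · rw [if_neg (not_not.mpr hJ), mul_zero, add_zero]
      exact count_sensitive g e H b _ _ hJ
    · rw [if_pos hJ, mul_one]
      have h6 : cnt (fun v : Fin k → Dom B =>
        St e v H (fun i => (τ i).1) ∧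
        DD g e v (offH e v H (xof (rs (fun i => (τ i).1) (fun i => (τ i).2)))) H)
        ≤ (2 ^ B) ^ k := by
        refine le_trans (cnt_le _) ?_
        simp
      have h7 : (cnt (fun v : Fin k → Dom B =>
        St e v H (fun i => (τ i).1) ∧
        DD g e v (offH e v H (xof (rs (fun i => (τ i).1) (fun i => (τ i).2)))) H)
        : ℝ) ≤ (2 ^ B) ^ k := by exact_mod_cast h6
      have h8 : (0 : ℝ) ≤ (b : ℝ) ^ H.card * (2 ^ B) ^ (k - (cov e H).card) := by positivity
      linarith
  refine le_trans h5 ?_
  rw [PE_add, PE_const (jt_sum q), PE_mul_left]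
  refine le_of_eq ?_
  congr 2
  unfold Pb
  have h3 := PE_PE (wt (ZV k B) q) (un (ZV k B))
    (fun ρ _ => @ite ℝ (¬ Junta b (fun z => g (xof (rs ρ z)))) (Classical.propDecidable _) 1 0)
  simp only [PE_const un_sum] at h3
  exact h3.symm

end

end Pool.Agent.Lib.MP_01def2_lc
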