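import Mathlib

/-!
Finite product expectations (elementary, finite sums only).
-/

namespace Pool.Agent.Lib.MP_01def2_lc

open Finset

open scoped Classical in
/-- Expectation of `F` on the finite product space `ι → A` with coordinate weights `μ`. -/
noncomputable def PE {ι A : Type} [Fintype ι] [Fintype A] (μ : ι → A → ℝ)
    (F : (ι → A) → ℝ) : ℝ :=
  ∑ ρ : ι → A, (∏ i, μ i (ρ i)) * F ρ

section
variable {ι A B C : Type} [Fintype ι] [Fintype A] [Fintype B] [Fintype C]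

theorem PE_add (μ : ι → A → ℝ) (F G : (ι → A) → ℝ) :
    PE μ (fun ρ => F ρ + G ρ) = PE μ F + PE μ G := by
  simp only [PE, mul_add, Finset.sum_add_distrib]

theorem PE_mul_left (μ : ι → A → ℝ) (c : ℝ) (F : (ι → A) → ℝ) :
    PE μ (fun ρ => c * F ρ) = c * PE μ F := by
  simp only [PE, Finset.mul_sum]
  refine Finset.sum_congr rfl fun ρ _ => by ring

theorem PE_mul_right (μ : ι → A → ℝ) (c : ℝ) (F : (ι → A) → ℝ) :
    PE μ (fun ρ => F ρ * c) = PE μ F * c := by
  simp only [PE, Finset.sum_mul]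
  refine Finset.sum_congr rfl fun ρ _ => by ring

theorem PE_sum {κ : Type*} (μ : ι → A → ℝ) (s : Finset κ) (F : κ → (ι → A) → ℝ) :
    PE μ (fun ρ => ∑ k ∈ s, F k ρ) = ∑ k ∈ s, PE μ (F k) := by
  simp only [PE, Finset.mul_sum]
  rw [Finset.sum_comm]

theorem PE_mono {μ : ι → A → ℝ} (hμ : ∀ i a, 0 ≤ μ i a) {F G : (ι → A) → ℝ}
    (h : ∀ ρ, F ρ ≤ G ρ) : PE μ F ≤ PE μ G := by
  unfold PE
  refine Finset.sum_le_sum fun ρ _ => ?_
  exact mul_le_mul_of_nonneg_left (h ρ) (Finset.prod_nonneg fun i _ => hμ i _)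

theorem PE_nonneg {μ : ι → A → ℝ} (hμ : ∀ i a, 0 ≤ μ i a) {F : (ι → A) → ℝ}
    (h : ∀ ρ, 0 ≤ F ρ) : 0 ≤ PE μ F := by
  unfold PE
  refine Finset.sum_nonneg fun ρ _ => ?_
  exact mul_nonneg (Finset.prod_nonneg fun i _ => hμ i _) (h ρ)

/-- product formula -/
theorem PE_prod_fun (μ : ι → A → ℝ) (f : ι → A → ℝ) :
    PE μ (fun ρ => ∏ i, f i (ρ i)) = ∏ i, ∑ a, μ i a * f i a := by
  classical
  rw [Finset.prod_univ_sum]
  simp only [Fintype.piFinset_univ]
  unfold PE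
  refine Finset.sum_congr rfl fun ρ _ => ?_
  rw [Finset.prod_mul_distrib]

theorem PE_one {μ : ι → A → ℝ} (h1 : ∀ i, ∑ a, μ i a = 1) :
    PE μ (fun _ => (1 : ℝ)) = 1 := by
  have := PE_prod_fun μ (fun _ _ => (1 : ℝ))
  simp only [Finset.prod_const_one, mul_one] at this
  rw [this]
  exact Finset.prod_eq_one fun i _ => h1 i

theorem PE_const {μ : ι → A → ℝ} (h1 : ∀ i, ∑ a, μ i a = 1) (c : ℝ) :
    PE μ (fun _ => c) = c := by
  have := PE_mul_left μ c (fun _ => (1 : ℝ))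
  simp only [mul_one] at this
  rw [this, PE_one h1, mul_one]

open scoped Classical in
/-- push-forward along coordinatewise maps -/
theorem PE_map (μ : ι → A → ℝ) (ν : ι → C → ℝ) (φ : ι → A → C)
    (h : ∀ i c, ∑ a ∈ univ.filter (fun a => φ i a = c), μ i a = ν i c)
    (F : (ι → C) → ℝ) :
    PE μ (fun ρ => F (fun i => φ i (ρ i))) = PE ν F := by
  unfold PE
  rw [← Finset.sum_fiberwise (s := univ) (g := fun ρ : ι → A => fun i => φ i (ρ i))]
  refine Finset.sum_congr rfl fun σ _ => ?_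
  have : ∀ ρ ∈ univ.filter (fun ρ : ι → A => (fun i => φ i (ρ i)) = σ),
      (∏ i, μ i (ρ i)) * F (fun i => φ i (ρ i)) = (∏ i, μ i (ρ i)) * F σ := by
    intro ρ hρ
    rw [Finset.mem_filter] at hρ
    rw [hρ.2]
  rw [Finset.sum_congr rfl this, ← Finset.sum_mul]
  congr 1
  have h2 : ∏ i, ν i (σ i) = ∏ i, ∑ a ∈ univ.filter (fun a => φ i a = σ i), μ i a :=
    Finset.prod_congr rfl fun i _ => (h i (σ i)).symm
  rw [h2, Finset.prod_univ_sum]
  refine Finset.sum_congr ?_ fun _ _ => rfl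
  ext ρ
  simp [Fintype.mem_piFinset, funext_iff]

/-- two independent copies as one product space -/
theorem PE_PE (μ : ι → A → ℝ) (ν : ι → B → ℝ) (F : (ι → A) → (ι → B) → ℝ) :
    PE μ (fun ρ => PE ν (fun σ => F ρ σ)) =
      PE (fun i (ab : A × B) => μ i ab.1 * ν i ab.2)
        (fun τ => F (fun i => (τ i).1) (fun i => (τ i).2)) := by
  classical
  unfold PE
  simp only [Finset.mul_sum]
  rw [← Finset.sum_product']
  rw [Finset.univ_product_univ]
  symm
  refine Fintype.sum_equiv (Equiv.arrowProdEquivProdArrow ι (fun _ => A) (fun _ => B)) _ _ ?_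
  intro τ
  simp only [Equiv.arrowProdEquivProdArrow, Equiv.coe_fn_mk]
  rw [Finset.prod_mul_distrib]
  ring

end

section
variable {ι A B C : Type} [Fintype ι] [Fintype A] [Fintype B] [Fintype C]

open scoped Classical in
/-- resampling the coordinates outside `Y` -/
theorem PE_merge {μ : ι → A → ℝ} (h1 : ∀ i, ∑ a, μ i a = 1) (Y : Finset ι)
    (F : (ι → A) → ℝ) :
    PE μ (fun ρ => PE μ (fun σ => F (Y.piecewise ρ σ))) = PE μ F := by
  rw [PE_PE]
  have : (fun τ : ι → A × A => F (Y.piecewise (fun i => (τ i).1) (fun i => (τ i).2))) =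
      fun τ => F (fun i => (fun i (ab : A × A) => if i ∈ Y then ab.1 else ab.2) i (τ i)) := by
    funext τ
    congr 1
  rw [this]
  refine PE_map (fun i (ab : A × A) => μ i ab.1 * μ i ab.2) μ
    (fun i (ab : A × A) => if i ∈ Y then ab.1 else ab.2) ?_ F
  intro i c
  by_cases hi : i ∈ Y
  · simp only [hi, if_true]
    have h2 : (univ.filter fun a : A × A => a.1 = c) = ({c} : Finset A) ×ˢ (univ : Finset A) := by
      ext ⟨a, b⟩; simp [eq_comm]
    rw [h2, Finset.sum_product]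
    simp only [Finset.sum_singleton]
    rw [← Finset.mul_sum, h1 i, mul_one]
  · simp only [hi, if_false]
    have h2 : (univ.filter fun a : A × A => a.2 = c) = (univ : Finset A) ×ˢ ({c} : Finset A) := by
      ext ⟨a, b⟩; simp [eq_comm]
    rw [h2, Finset.sum_product]
    simp only [Finset.sum_singleton]
    rw [← Finset.sum_mul, h1 i, one_mul]

theorem PE_indep {μ : ι → A → ℝ} (h1 : ∀ i, ∑ a, μ i a = 1) (Y : Finset ι)
    {F G : (ι → A) → ℝ} (hF : DependsOn F (↑Y : Set ι)) (hG : DependsOn G (↑Y : Set ι)ᶜ) :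
    PE μ (fun ρ => F ρ * G ρ) = PE μ F * PE μ G := by
  classical
  rw [← PE_merge h1 Y (fun ρ => F ρ * G ρ)]
  have : ∀ ρ σ : ι → A, F (Y.piecewise ρ σ) * G (Y.piecewise ρ σ) = F ρ * G σ := by
    intro ρ σ
    rw [hF (x := Y.piecewise ρ σ) (y := ρ), hG (x := Y.piecewise ρ σ) (y := σ)]
    · intro i hi
      have : i ∉ Y := by simpa using hi
      simp [this]
    · intro i hi
      have : i ∈ Y := by simpa using hi
      simp [this]
  simp only [this, PE_mul_left, PE_mul_right]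

open scoped Classical in
/-- probability of an event in the product space -/
noncomputable def Pb (μ : ι → A → ℝ) (P : (ι → A) → Prop) : ℝ :=
  PE μ (fun ρ => if P ρ then 1 else 0)

theorem Pb_nonneg {μ : ι → A → ℝ} (hμ : ∀ i a, 0 ≤ μ i a) (P : (ι → A) → Prop) :
    0 ≤ Pb μ P := by
  classical
  refine PE_nonneg hμ fun ρ => ?_
  split_ifs <;> norm_num

theorem Pb_mono {μ : ι → A → ℝ} (hμ : ∀ i a, 0 ≤ μ i a) {P Q : (ι → A) → Prop}
    (h : ∀ ρ, P ρ → Q ρ) : Pb μ P ≤ Pb μ Q := by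
  classical
  refine PE_mono hμ fun ρ => ?_
  by_cases hp : P ρ
  · simp [hp, h ρ hp]
  · simp only [hp, if_false]
    split_ifs <;> norm_num

theorem Pb_le_one {μ : ι → A → ℝ} (hμ : ∀ i a, 0 ≤ μ i a) (h1 : ∀ i, ∑ a, μ i a = 1)
    (P : (ι → A) → Prop) : Pb μ P ≤ 1 := by
  classical
  rw [← PE_one h1]
  refine PE_mono hμ fun ρ => ?_
  split_ifs <;> norm_num

theorem Pb_or_le {μ : ι → A → ℝ} (hμ : ∀ i a, 0 ≤ μ i a) (P Q : (ι → A) → Prop) :
    Pb μ (fun ρ => P ρ ∨ Q ρ) ≤ Pb μ P + Pb μ Q := by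
  classical
  unfold Pb
  rw [← PE_add]
  refine PE_mono hμ fun ρ => ?_
  by_cases hp : P ρ <;> by_cases hq : Q ρ <;> simp [hp, hq]

theorem Pb_exists_le {κ : Type*} {μ : ι → A → ℝ} (hμ : ∀ i a, 0 ≤ μ i a)
    (s : Finset κ) (P : κ → (ι → A) → Prop) :
    Pb μ (fun ρ => ∃ k ∈ s, P k ρ) ≤ ∑ k ∈ s, Pb μ (P k) := by
  classical
  unfold Pb
  rw [← PE_sum]
  refine PE_mono hμ fun ρ => ?_
  by_cases h : ∃ k ∈ s, P k ρ
  · obtain ⟨k, hk, hP⟩ := h
    have h2 : (if P k ρ then (1 : ℝ) else 0) ≤ ∑ k ∈ s, if P k ρ then (1 : ℝ) else 0 :=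
      Finset.single_le_sum (f := fun k => if P k ρ then (1 : ℝ) else 0)
        (fun i _ => by split_ifs <;> norm_num) hk
    rw [if_pos hP] at h2
    rw [if_pos ⟨k, hk, hP⟩]
    exact h2
  · rw [if_neg h]
    exact Finset.sum_nonneg fun i _ => by split_ifs <;> norm_num

theorem Pb_not {μ : ι → A → ℝ} (h1 : ∀ i, ∑ a, μ i a = 1) (P : (ι → A) → Prop) :
    Pb μ (fun ρ => ¬ P ρ) = 1 - Pb μ P := by
  classical
  rw [eq_sub_iff_add_eq]
  unfold Pb
  rw [← PE_add]
  refine Eq.trans ?_ (PE_one h1)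
  congr 1
  funext ρ
  by_cases hp : P ρ <;> simp [hp]

theorem Pb_indep {μ : ι → A → ℝ} (h1 : ∀ i, ∑ a, μ i a = 1) (Y : Finset ι)
    {P Q : (ι → A) → Prop} (hP : DependsOn P (↑Y : Set ι)) (hQ : DependsOn Q (↑Y : Set ι)ᶜ) :
    Pb μ (fun ρ => P ρ ∧ Q ρ) = Pb μ P * Pb μ Q := by
  classical
  unfold Pb
  rw [← PE_indep h1 Y]
  · congr 1
    funext ρ
    by_cases hp : P ρ <;> by_cases hq : Q ρ <;> simp [hp, hq]
  · intro x y hxy
    simp only [hP hxy]
  · intro x y hxy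
    simp only [hQ hxy]

open scoped Classical in
/-- probability of a cylinder -/
theorem Pb_cyl {μ : ι → A → ℝ} (h1 : ∀ i, ∑ a, μ i a = 1) (W : Finset ι)
    (P : ι → A → Prop) :
    Pb μ (fun ρ => ∀ i ∈ W, P i (ρ i)) = ∏ i ∈ W, ∑ a, μ i a * (if P i a then 1 else 0) := by
  have h2 : Pb μ (fun ρ => ∀ i ∈ W, P i (ρ i)) = PE μ (
      fun ρ => ∏ i, (fun i a => if i ∈ W → P i a then (1 : ℝ) else 0) i (ρ i)) := by
    unfold Pb
    congr 1
    funext ρ
    by_cases h : ∀ i ∈ W, P i (ρ i)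
    · rw [if_pos h]
      symm
      refine Finset.prod_eq_one fun i _ => ?_
      simp only
      rw [if_pos (h i)]
    · rw [if_neg h]
      symm
      push Not at h
      obtain ⟨i, hi, hP⟩ := h
      refine Finset.prod_eq_zero (Finset.mem_univ i) ?_
      simp only
      rw [if_neg]
      intro h3
      exact hP (h3 hi)
  rw [h2, PE_prod_fun μ (fun i a => if i ∈ W → P i a then (1 : ℝ) else 0)]
  rw [← Finset.prod_subset (Finset.subset_univ W)]
  · refine Finset.prod_congr rfl fun i hi => ?_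
    simp [hi]
  · intro i _ hi
    simp [hi, h1 i]

end

end Pool.Agent.Lib.MP_01def2_lc
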