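import Pool.Agent.Lib.MP_01def2_lc.Plant

/-!
The union-sequence argument: unbounded fan-in gates are built up one wire at a time.
-/

namespace Pool.Agent.Lib.MP_01def2_lc

open Finset

section
variable {k B : ℕ}

theorem sens_not (g : (Tup k B → Bool) → Bool) (e : Fin k → Pos → Fin k)
    (v : Fin k → Dom B) (x : Tup k B → Bool) :
    sens (fun x => ! g x) e v x = sens g e v x := by
  classical
  unfold sens
  refine Finset.filter_congr fun j _ => ?_
  simp

theorem sens_const (c : Bool) (e : Fin k → Pos → Fin k)
    (v : Fin k → Dom B) (x : Tup k B → Bool) :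
    sens (fun _ => c) e v x = ∅ := by
  classical
  unfold sens
  simp

theorem sens_and_sub (g g1 g2 : (Tup k B → Bool) → Bool) (e : Fin k → Pos → Fin k)
    (v : Fin k → Dom B) (x : Tup k B → Bool) (h : ∀ y, g y = (g1 y && g2 y)) :
    sens g e v x ⊆ sens g1 e v x ∪ sens g2 e v x := by
  classical
  intro j hj
  unfold sens at hj ⊢
  rw [Finset.mem_union, Finset.mem_filter, Finset.mem_filter]
  rw [Finset.mem_filter] at hj
  obtain ⟨_, A, hA⟩ := hj
  by_contra hcon
  push Not at hcon
  obtain ⟨h1, h2⟩ := hcon
  apply hA
  rw [h, h, h1 (Finset.mem_univ _) A, h2 (Finset.mem_univ _) A]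

theorem sens_or_sub (g g1 g2 : (Tup k B → Bool) → Bool) (e : Fin k → Pos → Fin k)
    (v : Fin k → Dom B) (x : Tup k B → Bool) (h : ∀ y, g y = (g1 y || g2 y)) :
    sens g e v x ⊆ sens g1 e v x ∪ sens g2 e v x := by
  classical
  intro j hj
  unfold sens at hj ⊢
  rw [Finset.mem_union, Finset.mem_filter, Finset.mem_filter]
  rw [Finset.mem_filter] at hj
  obtain ⟨_, A, hA⟩ := hj
  by_contra hcon
  push Not at hcon
  obtain ⟨h1, h2⟩ := hcon
  apply hA
  rw [h, h, h1 (Finset.mem_univ _) A, h2 (Finset.mem_univ _) A]

theorem sens_var (t : Tup k B) (e : Fin k → Pos → Fin k)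
    (v : Fin k → Dom B) (x : Tup k B → Bool) :
    (sens (fun x => x t) e v x).card ≤ 1 := by
  classical
  refine le_trans (Finset.card_le_card (t := {t.1}) ?_) (by simp)
  intro j hj
  unfold sens at hj
  rw [Finset.mem_filter] at hj
  obtain ⟨_, A, hA⟩ := hj
  rw [Finset.mem_singleton]
  by_contra hcon
  apply hA
  show plant e v A x t = plant e v (insert j A) x t
  unfold plant
  congr 1
  rw [decide_eq_decide]
  constructor
  · rintro ⟨i, hi, h⟩
    exact ⟨i, Finset.mem_insert_of_mem hi, h⟩
  · rintro ⟨i, hi, h⟩
    rw [Finset.mem_insert] at hi
    rcases hi with rfl | hi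
    · exact absurd (by rw [h]; rfl) hcon
    · exact ⟨i, hi, h⟩

end

open scoped Classical in
/-- the first `m` wires of a gate -/
noncomputable def ch {α : Type} (cs : Finset α) (m : ℕ) : Finset α := (cs.toList.take m).toFinset

theorem ch_zero {α : Type} (cs : Finset α) : ch cs 0 = ∅ := by
  classical
  simp [ch]

theorem ch_subset {α : Type} (cs : Finset α) (m : ℕ) : ch cs m ⊆ cs := by
  classical
  intro a ha
  unfold ch at ha
  rw [List.mem_toFinset] at ha
  exact Finset.mem_toList.mp (List.mem_of_mem_take ha)

theorem ch_all {α : Type} (cs : Finset α) (m : ℕ) (hm : cs.card ≤ m) : ch cs m = cs := by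
  classical
  unfold ch
  rw [List.take_of_length_le (by simpa using hm)]
  ext a
  simp

theorem ch_succ {α : Type} (cs : Finset α) (m : ℕ) :
    ch cs (m + 1) = ch cs m ∨ ∃ a ∈ cs, ∀ c, c ∈ ch cs (m + 1) ↔ c = a ∨ c ∈ ch cs m := by
  classical
  unfold ch
  by_cases hm : m < cs.toList.length
  · right
    refine ⟨cs.toList[m], Finset.mem_toList.mp (List.getElem_mem hm), ?_⟩
    rw [List.take_succ_eq_append_getElem hm]
    intro a
    simp only [List.mem_toFinset, List.mem_append, List.mem_singleton]
    exact or_comm
  · left
    rw [List.take_of_length_le (by omega), List.take_of_length_le (by omega)]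

open scoped Classical in
/-- the partially built gate `i`, using only its first `m` wires -/
noncomputable def pf {V : Type} (C : Circuit V) (i : Fin C.size) (m : ℕ) (x : V → Bool) : Bool :=
  match C.gate i with
  | .not c => ! C.wireVal x (liftW i c)
  | .and cs => decide (∀ c ∈ ch cs m, C.wireVal x (liftW i c) = true)
  | .or cs => decide (∃ c ∈ ch cs m, C.wireVal x (liftW i c) = true)

theorem pf_not {V : Type} {C : Circuit V} {i : Fin C.size} {c : V ⊕ Fin i.1}
    (h : C.gate i = .not c) (m : ℕ) (x : V → Bool) :
    pf C i m x = ! C.wireVal x (liftW i c) := by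
  unfold pf
  simp only [h]

theorem pf_and {V : Type} {C : Circuit V} {i : Fin C.size} {cs : Finset (V ⊕ Fin i.1)}
    (h : C.gate i = .and cs) (m : ℕ) (x : V → Bool) :
    pf C i m x = true ↔ ∀ c ∈ ch cs m, C.wireVal x (liftW i c) = true := by
  unfold pf
  simp only [h, decide_eq_true_eq]

theorem pf_or {V : Type} {C : Circuit V} {i : Fin C.size} {cs : Finset (V ⊕ Fin i.1)}
    (h : C.gate i = .or cs) (m : ℕ) (x : V → Bool) :
    pf C i m x = true ↔ ∃ c ∈ ch cs m, C.wireVal x (liftW i c) = true := by
  unfold pf
  simp only [h, decide_eq_true_eq]

theorem pf_full {V : Type} [Fintype V] (C : Circuit V) (i : Fin C.size) (m : ℕ)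
    (hm : Fintype.card V + C.size + 1 ≤ m) (x : V → Bool) : pf C i m x = C.gateVal x i := by
  cases h : C.gate i with
  | not c => rw [pf_not h, gateVal_not h]
  | and cs =>
    rw [Bool.eq_iff_iff, pf_and h, gateVal_and h, ch_all cs m ((card_cs_le cs).trans hm),
      decide_eq_true_eq]
  | or cs =>
    rw [Bool.eq_iff_iff, pf_or h, gateVal_or h, ch_all cs m ((card_cs_le cs).trans hm),
      decide_eq_true_eq]

/-- **union-sequence argument** -/
theorem sens_small {k B : ℕ} (hk : 4 ≤ k) {V : Type} [Fintype V] (C : Circuit V)
    (Ψ : (Tup k B → Bool) → V → Bool)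
    (hΨ : ∀ v, (∃ c, ∀ x, Ψ x v = c) ∨ ∃ t, ∀ x, Ψ x v = x t)
    (e : Fin k → Pos → Fin k) (v : Fin k → Dom B) (x : Tup k B → Bool) (d : ℕ)
    (hmid : ∀ i : Fin C.size, C.gateDepth i ≤ d → ∀ m ≤ Fintype.card V + C.size + 1,
      ∀ H : Finset (Fin k), k ≤ 3 * H.card → 3 * H.card < 2 * k →
        ¬ DD (fun x => pf C i m (Ψ x)) e v x H) :
    ∀ c : V ⊕ Fin C.size, C.wireDepth c ≤ d →
      3 * (sens (fun x => C.wireVal (Ψ x) c) e v x).card < k := by
  classical
  have hinp : ∀ u : V, 3 * (sens (fun x => Ψ x u) e v x).card < k := by
    intro u
    rcases hΨ u with ⟨c, hc⟩ | ⟨t, ht⟩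
    · simp only [hc, sens_const]
      simp
      omega
    · simp only [ht]
      have := sens_var t e v x
      omega
  have hgate : ∀ n : ℕ, ∀ i : Fin C.size, i.1 = n → C.gateDepth i ≤ d →
      3 * (sens (fun x => C.gateVal (Ψ x) i) e v x).card < k := by
    intro n
    induction n using Nat.strong_induction_on with
    | _ n IH =>
      intro i hi hd
      -- children are small
      have hchild : ∀ c : V ⊕ Fin i.1, C.wireDepth (liftW i c) ≤ d →
          3 * (sens (fun x => C.wireVal (Ψ x) (liftW i c)) e v x).card < k := by
        intro c hc
        rcases c with u | j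
        · exact hinp u
        · exact IH j.1 (by have := j.2; omega) ⟨j.1, j.2.trans i.2⟩ rfl hc
      have hstep : ∀ m ≤ Fintype.card V + C.size + 1,
          3 * (sens (fun x => pf C i m (Ψ x)) e v x).card < k := by
        intro m
        induction m with
        | zero =>
          intro _
          cases h : C.gate i with
          | not c =>
            simp only [pf_not h]
            rw [sens_not]
            exact hchild c (by have := gateDepth_not h; omega)
          | and cs =>
            have : (fun x : Tup k B → Bool => pf C i 0 (Ψ x)) = fun _ => true := by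
              funext x
              rw [pf_and h]
              simp [ch_zero]
            rw [this, sens_const]
            simp
            omega
          | or cs =>
            have : (fun x : Tup k B → Bool => pf C i 0 (Ψ x)) = fun _ => false := by
              funext x
              rw [Bool.eq_false_iff, ne_eq, pf_or h]
              simp [ch_zero]
            rw [this, sens_const]
            simp
            omega
        | succ m ihm =>
          intro hm
          have ih := ihm (by omega)
          have hDD := sens_DD (fun x => pf C i (m + 1) (Ψ x)) e v x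
          have hnot := hmid i hd (m + 1) hm (sens (fun x => pf C i (m + 1) (Ψ x)) e v x)
          -- it suffices to bound by 2k/3
          have hsuff : 3 * (sens (fun x => pf C i (m + 1) (Ψ x)) e v x).card < 2 * k →
              3 * (sens (fun x => pf C i (m + 1) (Ψ x)) e v x).card < k := by
            intro h2
            by_contra hcon
            exact hnot (by omega) h2 hDD
          apply hsuff
          cases h : C.gate i with
          | not c =>
            have : (fun x => pf C i (m + 1) (Ψ x)) = fun x => pf C i m (Ψ x) := by
              funext x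
              rw [pf_not h, pf_not h]
            rw [this]
            omega
          | and cs =>
            rcases ch_succ cs m with hch | ⟨a, ha, hch⟩
            · have : (fun x => pf C i (m + 1) (Ψ x)) = fun x => pf C i m (Ψ x) := by
                funext x
                rw [Bool.eq_iff_iff, pf_and h, pf_and h, hch]
              rw [this]
              omega
            · have h3 := sens_and_sub (fun x => pf C i (m + 1) (Ψ x)) (fun x => pf C i m (Ψ x))
                (fun x => C.wireVal (Ψ x) (liftW i a)) e v x (by
                  intro y
                  rw [Bool.eq_iff_iff, Bool.and_eq_true, pf_and h, pf_and h]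
                  simp only [hch, forall_eq_or_imp]
                  exact and_comm)
              have h4 := Finset.card_le_card h3
              have h5 := Finset.card_union_le (sens (fun x => pf C i m (Ψ x)) e v x)
                (sens (fun x => C.wireVal (Ψ x) (liftW i a)) e v x)
              have h6 := hchild a (by have := gateDepth_and h ha; omega)
              omega
          | or cs =>
            rcases ch_succ cs m with hch | ⟨a, ha, hch⟩
            · have : (fun x => pf C i (m + 1) (Ψ x)) = fun x => pf C i m (Ψ x) := by
                funext x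
                rw [Bool.eq_iff_iff, pf_or h, pf_or h, hch]
              rw [this]
              omega
            · have h3 := sens_or_sub (fun x => pf C i (m + 1) (Ψ x)) (fun x => pf C i m (Ψ x))
                (fun x => C.wireVal (Ψ x) (liftW i a)) e v x (by
                  intro y
                  rw [Bool.eq_iff_iff, Bool.or_eq_true, pf_or h, pf_or h]
                  simp only [hch, exists_eq_or_imp]
                  exact or_comm)
              have h4 := Finset.card_le_card h3
              have h5 := Finset.card_union_le (sens (fun x => pf C i m (Ψ x)) e v x)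
                (sens (fun x => C.wireVal (Ψ x) (liftW i a)) e v x)
              have h6 := hchild a (by have := gateDepth_or h ha; omega)
              omega
      have hfin := hstep (Fintype.card V + C.size + 1) le_rfl
      simp only [pf_full C i _ le_rfl] at hfin
      exact hfin
  intro c hc
  rcases c with u | i
  · exact hinp u
  · exact hgate i.1 i rfl hc

end Pool.Agent.Lib.MP_01def2_lc
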